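import Pool.Agent.Helper12.Sab.Curv

set_option autoImplicit false

namespace Pool.Agent.Helper12.Sab

open Multiset

variable {R : Type*} [CommRing R] {V : Type*} [AddCommGroup V] [Module R V]
  {W : Type*} [AddCommGroup W] [Module R W]

/-- Failure of `f` to intertwine two frames. -/
def EE (θ : Multiset V → V → V) (θ' : Multiset W → W → W) (f : V →ₗ[R] W) (s : Multiset V)
    (z : V) : W := f (θ s z) - θ' (s.map f) (f z)

theorem asum_eq_last {α : Type*} {M : Type*} [AddCommGroup M] (s : Multiset α)
    (F : Multiset α → Multiset α → M) (h : ∀ u t, u + t = s → t ≠ 0 → F u t = 0) :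
    asum s F = F s 0 := by
  have h1 := asum_split s F (fun _ _ => (0 : M)) h
  have h0 : asum s (fun _ _ => (0 : M)) = 0 := by simp [asum]
  rw [h0, sub_zero, sub_zero] at h1
  exact h1

theorem agree_tau {θ : Multiset V → V → V} {θ' : Multiset W → W → W} (h : IsFrame R θ)
    (f : V →ₗ[R] W) (m : ℕ) (hm : ∀ s z, card s ≤ m → EE θ θ' f s z = 0) (y z : V)
    (s : Multiset V) (hs : card s ≤ m) :
    f (tau θ y z s) - tau θ' (f y) (f z) (s.map f) =
      EE θ θ' f (y ::ₘ s) z - EE θ θ' f (z ::ₘ s) y := by
  have key : ∀ y z : V, f (asum s (fun p q => θ (θ q y ::ₘ p) z)) -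
      asum (s.map f) (fun p q => θ' (θ' q (f y) ::ₘ p) (f z)) = EE θ θ' f (y ::ₘ s) z := by
    intro y z
    have e0 : EE θ θ' f (θ 0 y ::ₘ s) z =
        asum s (fun p q => EE θ θ' f (θ q y ::ₘ p) z) := by
      symm
      apply asum_eq_last
      intro p q hpq hq
      apply hm
      rw [card_cons]
      have h1 := card_pos.2 hq
      rw [← hpq, card_add] at hs
      omega
    rw [h.zero] at e0
    rw [e0, asum_map]
    have e1 : f (asum s (fun p q => θ (θ q y ::ₘ p) z)) =
        asum s (fun p q => f (θ (θ q y ::ₘ p) z)) :=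
      asum_map_hom s _ f.toAddMonoidHom
    rw [e1, ← asum_sub]
    apply asum_congr
    intro p q hpq
    have hq : card q ≤ m := by rw [← hpq, card_add] at hs; omega
    have e2 := hm q y hq
    unfold EE at e2 ⊢
    rw [sub_eq_zero] at e2
    rw [map_cons, e2]
  unfold tau
  rw [asum_sub, asum_sub, map_sub, ← key y z, ← key z y]
  abel

theorem agree_cc {θ : Multiset V → V → V} {θ' : Multiset W → W → W} (h : IsFrame R θ)
    (h' : IsFrame R θ')
    (f : V →ₗ[R] W) (m : ℕ) (hm : ∀ s z, card s ≤ m → EE θ θ' f s z = 0) (y z : V)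
    (s : Multiset V) (hs : card s ≤ m) :
    f (cc θ y z s) - cc θ' (f y) (f z) (s.map f) =
      -(EE θ θ' f (y ::ₘ s) z - EE θ θ' f (z ::ₘ s) y) := by
  induction hn : card s using Nat.strong_induction_on generalizing s with
  | _ n ih =>
  subst hn
  rw [← agree_tau h f m hm y z s hs]
  have h1 := conv_solve h (fun s => - tau θ y z s) s
  have h2 := conv_solve h' (fun s => - tau θ' (f y) (f z) s) (s.map f)
  change conv θ (cc θ y z) s = _ at h1
  change conv θ' (cc θ' (f y) (f z)) (s.map f) = _ at h2
  have h3 : f (conv θ (cc θ y z) s) - conv θ' (cc θ' (f y) (f z)) (s.map f) =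
      asum s (fun b a => θ' (a.map f) (f (cc θ y z b) - cc θ' (f y) (f z) (b.map f))) := by
    rw [← asum_comm s (fun a b => θ' (a.map f) (f (cc θ y z b) - cc θ' (f y) (f z) (b.map f)))]
    unfold conv
    rw [asum_map]
    have e1 : f (asum s (fun a b => θ a (cc θ y z b))) = asum s (fun a b => f (θ a (cc θ y z b))) :=
      asum_map_hom s _ f.toAddMonoidHom
    rw [e1, ← asum_sub]
    apply asum_congr
    intro a b hab
    have ha : card a ≤ m := by rw [← hab, card_add] at hs; omega
    have e2 := hm a (cc θ y z b) ha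
    unfold EE at e2
    rw [sub_eq_zero] at e2
    rw [e2, h'.map_sub]
  have h4 : asum s (fun b a => θ' (a.map f) (f (cc θ y z b) - cc θ' (f y) (f z) (b.map f))) =
      f (cc θ y z s) - cc θ' (f y) (f z) (s.map f) := by
    rw [asum_eq_last]
    · simp only [map_zero]
      exact h'.zero _
    · intro b a hab ha
      have hb : card b < card s := by
        have := card_pos.2 ha
        rw [← hab, card_add]; omega
      rw [ih (card b) hb b (by omega) rfl, hm _ _ (by rw [card_cons]; omega),
        hm _ _ (by rw [card_cons]; omega), sub_zero, neg_zero, h'.map_zero]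
  rw [← h4, ← h3, h1, h2, map_neg]
  abel

theorem agree_Dl {θ : Multiset V → V → V} {θ' : Multiset W → W → W} (h : IsFrame R θ)
    (h' : IsFrame R θ')
    (f : V →ₗ[R] W) (m : ℕ) (hm : ∀ s z, card s ≤ m → EE θ θ' f s z = 0) (y z : V)
    (x : List V) (s : Multiset V) (hs : x.length + card s ≤ m) :
    f (Dl θ x (cc θ y z) s) - Dl θ' (x.map f) (cc θ' (f y) (f z)) (s.map f) =
      -(EE θ θ' f (y ::ₘ (↑x + s)) z - EE θ θ' f (z ::ₘ (↑x + s)) y) := by
  induction x generalizing s with
  | nil =>
    simp only [Dl_nil, List.map_nil, coe_nil, zero_add]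
    exact agree_cc h h' f m hm y z s (by simpa using hs)
  | cons x1 l ih =>
    rw [List.length_cons] at hs
    simp only [Dl_cons, List.map_cons]
    unfold D
    rw [asum_map]
    have e1 : f (asum s (fun u t => Dl θ l (cc θ y z) (θ t x1 ::ₘ u))) =
        asum s (fun u t => f (Dl θ l (cc θ y z) (θ t x1 ::ₘ u))) :=
      asum_map_hom s _ f.toAddMonoidHom
    rw [e1, ← asum_sub]
    have e2 : asum s (fun u t => f (Dl θ l (cc θ y z) (θ t x1 ::ₘ u)) -
        Dl θ' (l.map f) (cc θ' (f y) (f z)) (θ' (t.map f) (f x1) ::ₘ u.map f)) =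
        asum s (fun u t => -(EE θ θ' f (y ::ₘ (↑l + (θ t x1 ::ₘ u))) z -
          EE θ θ' f (z ::ₘ (↑l + (θ t x1 ::ₘ u))) y)) := by
      apply asum_congr
      intro u t hut
      have hc : card u + card t = card s := by rw [← card_add, hut]
      have e3 := hm t x1 (by omega)
      unfold EE at e3
      rw [sub_eq_zero] at e3
      rw [← ih (θ t x1 ::ₘ u) (by rw [card_cons]; omega), map_cons, e3]
    rw [e2, asum_eq_last]
    · rw [h.zero]
      have e4 : (↑l + (x1 ::ₘ s) : Multiset V) = ↑(x1 :: l) + s := by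
        rw [← cons_coe, cons_add, add_cons]
      rw [e4]
    · intro u t hut ht
      have hc : card u + card t = card s := by rw [← card_add, hut]
      have := card_pos.2 ht
      rw [hm _ _ (by simp only [card_cons, card_add, coe_card]; omega),
        hm _ _ (by simp only [card_cons, card_add, coe_card]; omega), sub_zero, neg_zero]

/-- The leading term of the operations of a frame, compared along a linear map. -/
theorem agree {θ : Multiset V → V → V} {θ' : Multiset W → W → W} (h : IsFrame R θ)
    (h' : IsFrame R θ')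
    (f : V →ₗ[R] W) (m : ℕ) (hm : ∀ s z, card s ≤ m → EE θ θ' f s z = 0) (y z : V)
    (x : List V) (hs : x.length ≤ m) :
    f (sb θ x y z) - sb θ' (x.map f) (f y) (f z) =
      -(EE θ θ' f (y ::ₘ ↑x) z - EE θ θ' f (z ::ₘ ↑x) y) := by
  have := agree_Dl h h' f m hm y z x 0 (by simpa using hs)
  simp only [add_zero, map_zero] at this
  exact this

end Pool.Agent.Helper12.Sab
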