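import Pool.Agent.Helper12.Sab.Functor

set_option autoImplicit false

namespace Pool.Agent.Helper12.Sab

universe u

variable {F : Type u} [Field F] {d : ℕ} {V : Type u} [AddCommGroup V] [Module F V]
  {W : Type u} [AddCommGroup W] [Module F W]

/-- homomorphisms of algebras over the functor -/
def IsHomG (γ : GG F d V →ₗ[F] V) (γ' : GG F d W →ₗ[F] W) (f : V →ₗ[F] W) : Prop :=
  ∀ g, f (γ g) = γ' (gmap d f g)

/-- freeness for algebras over the functor -/
def IsFreeG (γ : GG F d V →ₗ[F] V) (X : Set V) : Prop :=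
  ∀ (W : Type u) [AddCommGroup W] [Module F W] (γ' : GG F d W →ₗ[F] W) (g : X → W),
    ∃! f : V →ₗ[F] W, IsHomG γ γ' f ∧ ∀ x : X, f x = g x

theorem IsHomG.comp {X : Type u} [AddCommGroup X] [Module F X] {γ : GG F d V →ₗ[F] V}
    {γ' : GG F d W →ₗ[F] W} {γ'' : GG F d X →ₗ[F] X} {f : V →ₗ[F] W} {g : W →ₗ[F] X}
    (hf : IsHomG γ γ' f) (hg : IsHomG γ' γ'' g) : IsHomG γ γ'' (g ∘ₗ f) := by
  intro x
  rw [LinearMap.comp_apply, hf x, hg, gmap_comp]

theorem IsHomG.id (γ : GG F d V →ₗ[F] V) : IsHomG γ γ LinearMap.id := by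
  intro x
  rw [gmap_id]
  rfl

section free

variable {γ : GG F d V →ₗ[F] V} {X : Set V} (hfree : IsFreeG γ X)
include hfree

theorem eq_id_of_free (f : V →ₗ[F] V) (hf : IsHomG γ γ f) (hX : ∀ x : X, f x = x) :
    f = LinearMap.id :=
  (hfree V γ (fun x => x)).unique ⟨hf, hX⟩ ⟨IsHomG.id γ, fun _ => rfl⟩

/-- Lambek's lemma -/
theorem lambek : Function.Injective (fun p : (X →₀ F) × GG F d V =>
    Finsupp.linearCombination F (fun x : X => (x : V)) p.1 + γ p.2) := by
  let hat : ((X →₀ F) × GG F d V) →ₗ[F] V :=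
    (Finsupp.linearCombination F (fun x : X => (x : V))).coprod γ
  let γ' : GG F d ((X →₀ F) × GG F d V) →ₗ[F] ((X →₀ F) × GG F d V) :=
    LinearMap.inr F (X →₀ F) (GG F d V) ∘ₗ gmap d hat
  have hhat : IsHomG γ' γ hat := by
    intro g
    simp [γ', hat]
  obtain ⟨f, ⟨hf, hfX⟩, -⟩ := hfree _ γ' (fun x => (Finsupp.single x 1, 0))
  have h1 : hat ∘ₗ f = LinearMap.id := by
    apply eq_id_of_free hfree _ (hf.comp hhat)
    intro x
    rw [LinearMap.comp_apply, hfX x]
    simp [hat]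
  have h2 : ∀ p, f (hat p) = p := by
    rintro ⟨x, g⟩
    have e : hat (x, g) = Finsupp.linearCombination F (fun x : X => (x : V)) x + γ g := by
      simp [hat]
    rw [e, map_add, hf g]
    have e1 : γ' (gmap d f g) = (0, g) := by
      simp only [γ', LinearMap.comp_apply]
      rw [gmap_comp, h1, gmap_id]
      rfl
    have e2 : f (Finsupp.linearCombination F (fun x : X => (x : V)) x) = (x, 0) := by
      induction x using Finsupp.induction_linear with
      | zero => rw [map_zero, map_zero]; rfl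
      | add a b ha hb =>
        rw [map_add, map_add, ha (by simp [hat]), hb (by simp [hat])]
        simp
      | single a b =>
        rw [Finsupp.linearCombination_single, map_smul, hfX a]
        simp
    rw [e1, e2]
    simp
  intro p q hpq
  have : hat p = hat q := hpq
  rw [← h2 p, ← h2 q, this]

theorem gamma_inj : Function.Injective γ := by
  intro a b hab
  have := lambek hfree (a₁ := (0, a)) (a₂ := (0, b)) (by simp [hab])
  exact (Prod.mk.inj this).2

/-- filtration -/
noncomputable def An (γ : GG F d V →ₗ[F] V) (X : Set V) : ℕ → Submodule F V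
  | 0 => ⊥
  | n + 1 => Submodule.span F X ⊔ (gsub d (An γ X n)).map γ

omit hfree in
theorem An_succ (γ : GG F d V →ₗ[F] V) (X : Set V) (n : ℕ) :
    An γ X (n + 1) = Submodule.span F X ⊔ (gsub d (An γ X n)).map γ := rfl

omit hfree in
theorem An_mono (γ : GG F d V →ₗ[F] V) (X : Set V) : Monotone (An γ X) := by
  apply monotone_nat_of_le_succ
  intro n
  induction n with
  | zero => exact bot_le
  | succ n ih =>
    rw [An_succ γ X n, An_succ γ X (n + 1)]
    apply sup_le_sup_left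
    apply Submodule.map_mono
    intro g hg
    exact gsub_mono ih hg

theorem An_iSup : ⨆ n, An γ X n = ⊤ := by
  set A := ⨆ n, An γ X n with hA
  have hXA : ∀ x : X, (x : V) ∈ A := by
    intro x
    have h1 : (x : V) ∈ An γ X 1 := by
      rw [An_succ]
      exact Submodule.mem_sup_left (Submodule.subset_span x.2)
    exact (le_iSup (An γ X) 1) h1
  have hcl : ∀ g ∈ gsub d A, γ g ∈ A := by
    intro g hg
    obtain ⟨n, hn⟩ := gsub_chain (An γ X) (An_mono γ X) hg
    have h1 : γ g ∈ An γ X (n + 1) := by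
      rw [An_succ]
      exact Submodule.mem_sup_right ⟨g, hn, rfl⟩
    exact (le_iSup (An γ X) (n + 1)) h1
  let γA : GG F d A →ₗ[F] A := (γ ∘ₗ gmap d A.subtype).codRestrict A
    (fun g => hcl _ ⟨g, rfl⟩)
  have hi : IsHomG γA γ A.subtype := fun g => rfl
  obtain ⟨f, ⟨hf, hfX⟩, -⟩ := hfree A γA (fun x => ⟨x, hXA x⟩)
  have h1 : A.subtype ∘ₗ f = LinearMap.id := by
    apply eq_id_of_free hfree _ (hf.comp hi)
    intro x
    rw [LinearMap.comp_apply, hfX x]
    rfl
  rw [eq_top_iff]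
  intro v _
  have h2 := LinearMap.congr_fun h1 v
  rw [LinearMap.id_apply] at h2
  rw [← h2]
  exact (f v).2

theorem An_gamma (n : ℕ) (g : GG F d V) (hg : γ g ∈ An γ X (n + 1)) :
    g ∈ gsub d (An γ X n) := by
  rw [An_succ] at hg
  obtain ⟨x, hx, y, ⟨g', hg', rfl⟩, hxy⟩ := Submodule.mem_sup.1 hg
  have h1 : ∃ l : X →₀ F, Finsupp.linearCombination F (fun x : X => (x : V)) l = x := by
    have : Submodule.span F X = LinearMap.range
        (Finsupp.linearCombination F (fun x : X => (x : V))) := by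
      rw [Finsupp.range_linearCombination, Subtype.range_coe]
    rw [this] at hx
    exact hx
  obtain ⟨l, rfl⟩ := h1
  have h2 := lambek hfree (a₁ := (l, g')) (a₂ := (0, g)) (by simpa using hxy)
  have h3 := (Prod.mk.inj h2).2
  rw [← h3]
  exact hg'

end free

section criterion

variable {B : Type u} [AddCommGroup B] [Module F B] (γ : GG F d B →ₗ[F] B)
  (BB : ℕ → Submodule F B)

theorem exists_comp (n : ℕ) : ∃ P : Submodule F B, P ≤ BB (n + 1) ∧
    Disjoint P (BB n ⊔ LinearMap.range γ) ∧ BB (n + 1) ≤ P ⊔ (BB n ⊔ LinearMap.range γ) := by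
  obtain ⟨P, hP1, hP2⟩ := IsModularLattice.exists_disjoint_and_sup_eq
    (inf_le_right : (BB n ⊔ LinearMap.range γ) ⊓ BB (n + 1) ≤ BB (n + 1))
  have hle : P ≤ BB (n + 1) := by
    rw [← hP2]; exact le_sup_right
  refine ⟨P, hle, ?_, ?_⟩
  · rw [disjoint_iff, eq_bot_iff]
    intro x hx
    have h1 : x ∈ ((BB n ⊔ LinearMap.range γ) ⊓ BB (n + 1)) ⊓ P := ⟨⟨hx.2, hle hx.1⟩, hx.1⟩
    rw [disjoint_iff.1 hP1] at h1
    exact h1
  · conv_lhs => rw [← hP2]
    exact sup_le (inf_le_left.trans le_sup_right) le_sup_left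

/-- complements -/
noncomputable def Wc (n : ℕ) : Submodule F B := (exists_comp γ BB n).choose

theorem Wc_spec (n : ℕ) : Wc γ BB n ≤ BB (n + 1) ∧
    Disjoint (Wc γ BB n) (BB n ⊔ LinearMap.range γ) ∧
    BB (n + 1) ≤ Wc γ BB n ⊔ (BB n ⊔ LinearMap.range γ) := (exists_comp γ BB n).choose_spec

/-- generators of level at most `n` -/
noncomputable def Wn : ℕ → Submodule F B
  | 0 => ⊥
  | n + 1 => Wn n ⊔ Wc γ BB n

theorem Wn_succ (n : ℕ) : Wn γ BB (n + 1) = Wn γ BB n ⊔ Wc γ BB n := rfl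

theorem Wn_mono : Monotone (Wn γ BB) :=
  monotone_nat_of_le_succ (fun n => by rw [Wn_succ]; exact le_sup_left)

variable (hmono : Monotone BB) (h0 : BB 0 = ⊥) (htop : ⨆ n, BB n = ⊤)
  (hinj : Function.Injective γ) (hstar : ∀ n g, γ g ∈ BB (n + 1) → g ∈ gsub d (BB n))

include hmono in
theorem Wn_le (n : ℕ) : Wn γ BB n ≤ BB n := by
  induction n with
  | zero => exact bot_le
  | succ n ih =>
    rw [Wn_succ]
    exact sup_le (ih.trans (hmono (Nat.le_succ n))) (Wc_spec γ BB n).1

include hmono in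
theorem Wn_disj (n : ℕ) : ∀ w ∈ Wn γ BB n, w ∈ LinearMap.range γ → w = 0 := by
  induction n with
  | zero =>
    intro w hw _
    exact hw
  | succ n ih =>
    intro w hw hwD
    rw [Wn_succ] at hw
    obtain ⟨a, ha, b, hb, rfl⟩ := Submodule.mem_sup.1 hw
    have h1 : b ∈ BB n ⊔ LinearMap.range γ := by
      have : b = (-a) + (a + b) := by abel
      rw [this]
      exact Submodule.add_mem_sup (Submodule.neg_mem _ (Wn_le γ BB hmono n ha)) hwD
    have h2 : b = 0 := by
      have := (disjoint_iff.1 (Wc_spec γ BB n).2.1).le ⟨hb, h1⟩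
      exact this
    rw [h2, add_zero] at hwD ⊢
    exact ih a ha hwD

theorem Wn_span (h0 : BB 0 = ⊥) (n : ℕ) : ∀ b ∈ BB n, ∃ w ∈ Wn γ BB n, ∃ g, b = w + γ g := by
  induction n with
  | zero =>
    intro b hb
    rw [h0] at hb
    exact ⟨0, Submodule.zero_mem _, 0, by rw [map_zero, add_zero]; exact hb⟩
  | succ n ih =>
    intro b hb
    have h1 := (Wc_spec γ BB n).2.2 hb
    obtain ⟨w', hw', c, hc, rfl⟩ := Submodule.mem_sup.1 h1
    obtain ⟨b', hb', δ, ⟨g', rfl⟩, rfl⟩ := Submodule.mem_sup.1 hc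
    obtain ⟨w, hw, g, rfl⟩ := ih b' hb'
    refine ⟨w + w', ?_, g + g', ?_⟩
    · rw [Wn_succ]
      exact Submodule.add_mem_sup hw hw'
    · rw [map_add]; abel

/-- all generators -/
noncomputable def Wall : Submodule F B := ⨆ n, Wn γ BB n

include hmono in
theorem Wall_disj (w : B) (hw : w ∈ Wall γ BB) (hw' : w ∈ LinearMap.range γ) : w = 0 := by
  obtain ⟨n, hn⟩ := (Submodule.mem_iSup_of_chain ⟨Wn γ BB, Wn_mono γ BB⟩ w).1 hw
  exact Wn_disj γ BB hmono n w hn hw'

include hmono h0 hinj hstar in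
theorem level {n : ℕ} {w : B} {g : GG F d B} (hw : w ∈ Wall γ BB)
    (h : w + γ g ∈ BB (n + 1)) : g ∈ gsub d (BB n) := by
  obtain ⟨w', hw', g', h'⟩ := Wn_span γ BB h0 (n + 1) _ h
  have hw'' : w' ∈ Wall γ BB := (le_iSup (Wn γ BB) (n + 1)) hw'
  have h1 : w - w' = γ (g' - g) := by
    rw [map_sub, sub_eq_sub_iff_add_eq_add, h', add_comm]
  have h2 := Wall_disj γ BB hmono (w - w') (Submodule.sub_mem _ hw hw'') ⟨_, h1.symm⟩
  rw [h1] at h2
  have h3 : g' - g = 0 := hinj (by rw [h2, map_zero])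
  have h4 : g' = g := sub_eq_zero.1 h3
  subst h4
  apply hstar
  have h5 : γ g' = (w + γ g') - w := by abel
  rw [h5]
  apply Submodule.sub_mem _ h
  have h6 : w - w' = 0 := by rw [h1, sub_self, map_zero]
  rw [sub_eq_zero.1 h6]
  exact Wn_le γ BB hmono (n + 1) hw'

/-- the map `(w, g) ↦ w + γ g` -/
noncomputable def eMap : (Wall γ BB × GG F d B) →ₗ[F] B := (Wall γ BB).subtype.coprod γ

theorem eMap_apply (p : Wall γ BB × GG F d B) : eMap γ BB p = p.1 + γ p.2 := by
  simp [eMap]

include hmono h0 htop hinj in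
theorem eMap_bij : Function.Bijective (eMap γ BB) := by
  constructor
  · intro p q hpq
    rw [eMap_apply, eMap_apply] at hpq
    have h1 : (p.1 : B) - q.1 = γ (q.2 - p.2) := by
      rw [map_sub, sub_eq_sub_iff_add_eq_add, hpq, add_comm]
    have h2 := Wall_disj γ BB hmono _ (Submodule.sub_mem _ p.1.2 q.1.2) ⟨_, h1.symm⟩
    have h3 : q.2 - p.2 = 0 := hinj (by rw [← h1, h2, map_zero])
    apply Prod.ext
    · exact Subtype.ext (sub_eq_zero.1 h2)
    · exact (sub_eq_zero.1 h3).symm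
  · intro b
    have hb : b ∈ ⨆ n, BB n := by rw [htop]; trivial
    obtain ⟨n, hn⟩ := (Submodule.mem_iSup_of_chain ⟨BB, hmono⟩ b).1 hb
    obtain ⟨w, hw, g, rfl⟩ := Wn_span γ BB h0 n b hn
    exact ⟨(⟨w, (le_iSup (Wn γ BB) n) hw⟩, g), by rw [eMap_apply]⟩

variable {C : Type u} [AddCommGroup C] [Module F C] (γC : GG F d C →ₗ[F] C)

include hmono h0 htop hinj hstar in
theorem ext_unique (φ φ' : B →ₗ[F] C) (hφ : IsHomG γ γC φ) (hφ' : IsHomG γ γC φ')
    (h : ∀ w ∈ Wall γ BB, φ w = φ' w) : φ = φ' := by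
  have key : ∀ n, ∀ b ∈ BB n, φ b = φ' b := by
    intro n
    induction n with
    | zero =>
      intro b hb
      rw [h0] at hb
      have : b = 0 := hb
      rw [this, map_zero, map_zero]
    | succ n ih =>
      intro b hb
      obtain ⟨p, rfl⟩ := (eMap_bij γ BB hmono h0 htop hinj).2 b
      rw [eMap_apply] at hb ⊢
      have h1 := level γ BB hmono h0 hinj hstar p.1.2 hb
      rw [map_add, map_add, h _ p.1.2, hφ, hφ', gsub_agree φ φ' ih h1]
  ext b
  have hb : b ∈ ⨆ n, BB n := by rw [htop]; trivial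
  obtain ⟨n, hn⟩ := (Submodule.mem_iSup_of_chain ⟨BB, hmono⟩ b).1 hb
  exact key n b hn

include hmono h0 htop hinj hstar in
theorem ext_exists (f : Wall γ BB →ₗ[F] C) :
    ∃ φ : B →ₗ[F] C, IsHomG γ γC φ ∧ ∀ w : Wall γ BB, φ w = f w := by
  let e : (Wall γ BB × GG F d B) ≃ₗ[F] B :=
    LinearEquiv.ofBijective (eMap γ BB) (eMap_bij γ BB hmono h0 htop hinj)
  have he : ∀ p, e p = p.1 + γ p.2 := fun p => eMap_apply γ BB p
  let T : (B →ₗ[F] C) → (B →ₗ[F] C) := fun φ =>
    (f.coprod (γC ∘ₗ gmap d φ)) ∘ₗ e.symm.toLinearMap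
  have hT : ∀ φ (w : Wall γ BB) (g : GG F d B), T φ (w + γ g) = f w + γC (gmap d φ g) := by
    intro φ w g
    have : (w : B) + γ g = e (w, g) := (he (w, g)).symm
    rw [this]
    simp [T]
  let φn : ℕ → (B →ₗ[F] C) := fun n => Nat.rec 0 (fun _ φ => T φ) n
  have hφn : ∀ n, φn (n + 1) = T (φn n) := fun n => rfl
  have step : ∀ n, ∀ b ∈ BB n, φn (n + 1) b = φn n b := by
    intro n
    induction n with
    | zero =>
      intro b hb
      rw [h0] at hb
      have : b = 0 := hb
      rw [this, map_zero, map_zero]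
    | succ n ih =>
      intro b hb
      obtain ⟨p, rfl⟩ := (eMap_bij γ BB hmono h0 htop hinj).2 b
      rw [eMap_apply] at hb ⊢
      have h1 := level γ BB hmono h0 hinj hstar p.1.2 hb
      rw [hφn (n + 1), hφn n, hT, hT, ← hφn n, gsub_agree _ _ ih h1]
  have stable : ∀ n m, n ≤ m → ∀ b ∈ BB n, φn m b = φn n b := by
    intro n m hnm
    induction m, hnm using Nat.le_induction with
    | base => intro b _; rfl
    | succ m hm ih =>
      intro b hb
      rw [step m b (hmono hm hb)]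
      exact ih b hb
  have hex : ∀ b : B, ∃ n, b ∈ BB n := by
    intro b
    have hb : b ∈ ⨆ n, BB n := by rw [htop]; trivial
    exact (Submodule.mem_iSup_of_chain ⟨BB, hmono⟩ b).1 hb
  choose N hN using hex
  have hval : ∀ b n, b ∈ BB n → φn (N b) b = φn n b := by
    intro b n hn
    rcases le_total n (N b) with h | h
    · exact stable n _ h b hn
    · exact (stable _ n h b (hN b)).symm
  let φ : B →ₗ[F] C :=
    { toFun := fun b => φn (N b) b
      map_add' := by
        intro a b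
        have ha := hmono (le_max_left (N a) (N b)) (hN a)
        have hb := hmono (le_max_right (N a) (N b)) (hN b)
        rw [hval a _ ha, hval b _ hb, hval (a + b) _ (Submodule.add_mem _ ha hb), map_add]
      map_smul' := by
        intro c b
        rw [hval (c • b) _ (Submodule.smul_mem _ c (hN b)), map_smul]
        rfl }
  have hφ : ∀ n, ∀ b ∈ BB n, φ b = φn n b := fun n b hb => hval b n hb
  have hfix : ∀ b, T φ b = φ b := by
    intro b
    obtain ⟨p, rfl⟩ := (eMap_bij γ BB hmono h0 htop hinj).2 b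
    have hb := hN (eMap γ BB p)
    have hb' : eMap γ BB p ∈ BB (N (eMap γ BB p) + 1) := hmono (Nat.le_succ _) hb
    rw [hφ _ _ hb', hφn]
    rw [eMap_apply] at hb' ⊢
    have h1 := level γ BB hmono h0 hinj hstar p.1.2 hb'
    rw [hT, hT, gsub_agree _ _ (hφ _) h1]
  refine ⟨φ, ?_, ?_⟩
  · intro g
    have h1 := hT φ 0 g
    rw [Submodule.coe_zero, zero_add, map_zero, zero_add, hfix] at h1
    exact h1
  · intro w
    have h1 := hT φ w 0
    rw [map_zero, map_zero, map_zero, add_zero, add_zero, hfix] at h1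
    exact h1

include hmono h0 htop hinj hstar in
/-- The freeness criterion. -/
theorem free_of_filtration : ∃ Y : Set B, IsFreeG γ Y := by
  let b := Module.Basis.ofVectorSpace F (Wall γ BB)
  refine ⟨Set.range (fun i => ((b i : Wall γ BB) : B)), ?_⟩
  intro C _ _ γC g
  let f : Wall γ BB →ₗ[F] C := b.constr F (fun i => g ⟨_, ⟨i, rfl⟩⟩)
  have hf : ∀ i, f (b i) = g ⟨_, ⟨i, rfl⟩⟩ := fun i => by
    simp only [f, Module.Basis.constr_basis]
  obtain ⟨φ, hφ, hφf⟩ := ext_exists γ BB hmono h0 htop hinj hstar γC f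
  refine ⟨φ, ⟨hφ, ?_⟩, ?_⟩
  · rintro ⟨_, i, rfl⟩
    exact (hφf (b i)).trans (hf i)
  · rintro φ' ⟨hφ', hφ'g⟩
    apply ext_unique γ BB hmono h0 htop hinj hstar γC φ' φ hφ' hφ
    have h1 : φ' ∘ₗ (Wall γ BB).subtype = φ ∘ₗ (Wall γ BB).subtype := by
      apply b.ext
      intro i
      have h2 := hφ'g ⟨_, ⟨i, rfl⟩⟩
      simp only [LinearMap.comp_apply, Submodule.subtype_apply]
      rw [h2, hφf (b i), hf i]
    intro w hw
    exact LinearMap.congr_fun h1 ⟨w, hw⟩

end criterion

/-- Subalgebras of free algebras over the functor are free. -/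
theorem schreierG {γ : GG F d V →ₗ[F] V} {X : Set V} (hfree : IsFreeG γ X)
    (B : Submodule F V) (γB : GG F d B →ₗ[F] B) (hB : IsHomG γB γ B.subtype) :
    ∃ Y : Set B, IsFreeG γB Y := by
  have hret : Function.Injective (gmap d B.subtype) := by
    obtain ⟨Q, hQ⟩ := B.exists_isCompl
    apply Function.LeftInverse.injective (g := gmap d (B.projectionOnto Q hQ))
    intro g
    rw [gmap_comp, Submodule.projectionOnto_comp_subtype, gmap_id]
    rfl
  have hinj : Function.Injective γB := by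
    intro a b hab
    apply hret
    apply gamma_inj hfree
    rw [← hB a, ← hB b, hab]
  refine free_of_filtration γB (fun n => (An γ X n).comap B.subtype) ?_ ?_ ?_ hinj ?_
  · intro n m hnm
    exact Submodule.comap_mono (An_mono γ X hnm)
  · change Submodule.comap B.subtype ⊥ = ⊥
    rw [Submodule.comap_bot, Submodule.ker_subtype]
  · rw [eq_top_iff]
    intro b _
    have hb : (b : V) ∈ ⨆ n, An γ X n := by rw [An_iSup hfree]; trivial
    obtain ⟨n, hn⟩ := (Submodule.mem_iSup_of_chain ⟨An γ X, An_mono γ X⟩ (b : V)).1 hb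
    exact (le_iSup (fun n => (An γ X n).comap B.subtype) n) hn
  · intro n g hg
    apply gsub_of_inj
    apply An_gamma hfree
    rw [← hB g]
    exact hg

end Pool.Agent.Helper12.Sab
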