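import Pool.Agent.Helper12.Sab.Build
import Pool.Agent.Helper12.Sab.GAlg

set_option autoImplicit false

namespace Pool.Agent.Helper12.Sab

open Multiset (card)

universe u

variable {F : Type u} [Field F] {d : ℕ} {V : Type u} [AddCommGroup V] [Module F V]
  {W : Type u} [AddCommGroup W] [Module F W]

/-- The frame of an algebra over the functor. -/
noncomputable def toTheta (γ : GG F d V →ₗ[F] V) (s : Multiset V) (z : V) : V :=
  open Classical in if s = 0 then z else γ (gi F d (Sum.inl (s, z)))

theorem toTheta_zero (γ : GG F d V →ₗ[F] V) (z : V) : toTheta γ 0 z = z := if_pos rfl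

theorem toTheta_ne (γ : GG F d V →ₗ[F] V) {s : Multiset V} (hs : s ≠ 0) (z : V) :
    toTheta γ s z = γ (gi F d (Sum.inl (s, z))) := if_neg hs

theorem toTheta_frame (γ : GG F d V →ₗ[F] V) : IsFrame F (toTheta γ) where
  zero := toTheta_zero γ
  lin s a u v := by
    by_cases hs : s = 0
    · subst hs; simp only [toTheta_zero]
    · simp only [toTheta_ne γ hs]
      rw [gi_isOp.p1, map_add, map_smul]
  mlin w s a u v := by
    simp only
    rw [toTheta_ne γ Multiset.cons_ne_zero, toTheta_ne γ Multiset.cons_ne_zero,
      toTheta_ne γ Multiset.cons_ne_zero]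
    have := (gi_isOp (F := F) (d := d)).p2 w s a u v
    simp only at this
    rw [this, map_add, map_smul]

theorem toTheta_nrm (γ : GG F d V →ₗ[F] V) : Nrm (toTheta γ) := by
  intro s hs
  have h1 := psum_hom s (fun x t => gi F d (Sum.inl (t, x))) γ.toAddMonoidHom
  rw [(gi_isOp (F := F) (d := d)).p3 s hs] at h1
  rw [map_zero] at h1
  rw [h1]
  apply psum_congr
  intro x t hxt
  apply toTheta_ne
  rintro rfl
  have := congrArg card hxt
  simp at this
  omega

theorem toTheta_supp (γ : GG F d V →ₗ[F] V) (s : Multiset V) (z : V) (hs : s ≠ 0)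
    (hd : d ≤ card s) : toTheta γ s z = 0 := by
  rw [toTheta_ne γ hs, gi_isOp.p4 s z (Or.inr hd), map_zero]

/-- `γ` and `S` define the same structure. -/
def Corr (γ : GG F d V →ₗ[F] V) (S : SabAlg F d V) : Prop :=
  (∀ (x : List V) (y z : V), x.length + 2 ≤ d → S.br x y z = sb (toTheta γ) x y z) ∧
    ∀ x y : List V, S.Phi x y = γ (gi F d (Sum.inr (↑x, ↑y)))

theorem exists_gamma [CharZero F] (S : SabAlg F d V) : ∃ γ : GG F d V →ₗ[F] V, Corr γ S := by
  classical
  obtain ⟨θ, hθ, hN, hsup, hbr⟩ := exists_frame S
  let φ : Sy V → V := fun x => match x with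
    | Sum.inl p => if p.1 = 0 then 0 else θ p.1 p.2
    | Sum.inr p => S.Phi p.1.toList p.2.toList
  have hφ1 : ∀ s z, φ (Sum.inl (s, z)) = if s = 0 then 0 else θ s z := fun _ _ => rfl
  have hφ2 : ∀ s t, φ (Sum.inr (s, t)) = S.Phi s.toList t.toList := fun _ _ => rfl
  have hperm : ∀ (a : V) (s : Multiset V), (a ::ₘ s).toList.Perm (a :: s.toList) := by
    intro a s
    rw [← Multiset.coe_eq_coe, ← Multiset.cons_coe, Multiset.coe_toList, Multiset.coe_toList]
  have hop : IsOp F d φ :=
    { p1 := by
        intro s a u v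
        simp only [hφ1]
        split_ifs with h
        · rw [smul_zero, add_zero]
        · exact hθ.lin s a u v
      p2 := by
        intro w s a u v
        simp only [hφ1]
        rw [if_neg Multiset.cons_ne_zero, if_neg Multiset.cons_ne_zero,
          if_neg Multiset.cons_ne_zero]
        exact hθ.mlin w s a u v
      p3 := by
        intro s hs
        rw [← hN s hs]
        apply psum_congr
        intro x t hxt
        rw [hφ1, if_neg]
        rintro rfl
        have := congrArg card hxt
        simp at this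
        omega
      p4 := by
        intro s z h
        rw [hφ1]
        split_ifs with h0
        · rfl
        · exact hsup s z h0 (h.resolve_left h0)
      p5 := by
        intro t s a u v
        simp only [hφ2]
        rw [S.S4x _ _ _ (hperm _ s), S.S4x _ _ _ (hperm u s), S.S4x _ _ _ (hperm v s)]
        exact S.Phi_lin_x [] s.toList _ a u v
      p6 := by
        intro t s a u v
        simp only [hφ2]
        rw [S.S4y _ _ _ (hperm _ s), S.S4y _ _ _ (hperm u s), S.S4y _ _ _ (hperm v s)]
        exact S.Phi_lin_y _ [] s.toList a u v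
      p7 := by
        intro s t h
        rw [hφ2]
        apply S.Phi_out
        rwa [Multiset.length_toList, Multiset.length_toList] }
  have hth : toTheta (glift φ hop) = θ := by
    funext s z
    by_cases hs : s = 0
    · rw [hs, toTheta_zero, hθ.zero]
    · rw [toTheta_ne _ hs, glift_gi, hφ1, if_neg hs]
  refine ⟨glift φ hop, ?_, ?_⟩
  · intro x y z hx
    rw [hth, hbr x y z hx]
  · intro x y
    rw [glift_gi, hφ2]
    rw [S.S4x x (x : Multiset V).toList y (by rw [← Multiset.coe_eq_coe, Multiset.coe_toList]),
      S.S4y _ y (y : Multiset V).toList (by rw [← Multiset.coe_eq_coe, Multiset.coe_toList])]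

/-- The degree `d` Sabinin algebra of an algebra over the functor. -/
noncomputable def toSab (γ : GG F d V →ₗ[F] V) : SabAlg F d V where
  br x y z := if x.length + 2 ≤ d then sb (toTheta γ) x y z else 0
  Phi x y := γ (gi F d (Sum.inr (↑x, ↑y)))
  br_out x y z h := if_neg (by omega)
  Phi_out x y h := by
    rw [gi_isOp.p7 _ _ (by simpa using h), map_zero]
  br_lin_x l r a u v y z := by
    have e : ∀ w : V, (l ++ w :: r).length = l.length + r.length + 1 := by
      intro w; simp; omega
    simp only [e]
    split_ifs with h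
    · exact sb_lin_x (toTheta_frame γ) l r a u v y z
    · rw [smul_zero, add_zero]
  br_lin_y x a u v z := by
    split_ifs with h
    · exact sb_lin_y (toTheta_frame γ) x a u v z
    · rw [smul_zero, add_zero]
  br_lin_z x a y u v := by
    split_ifs with h
    · exact sb_lin_z (toTheta_frame γ) x a y u v
    · rw [smul_zero, add_zero]
  Phi_lin_x l r y a u v := by
    have e : ∀ w : V, ((l ++ w :: r : List V) : Multiset V) = w ::ₘ ((l ++ r : List V) : Multiset V) := by
      intro w
      rw [Multiset.cons_coe, Multiset.coe_eq_coe]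
      exact List.perm_middle
    rw [e, e, e]
    have := (gi_isOp (F := F) (d := d)).p5 (↑y) ((l ++ r : List V) : Multiset V) a u v
    simp only at this
    rw [this, map_add, map_smul]
  Phi_lin_y x l r a u v := by
    have e : ∀ w : V, ((l ++ w :: r : List V) : Multiset V) = w ::ₘ ((l ++ r : List V) : Multiset V) := by
      intro w
      rw [Multiset.cons_coe, Multiset.coe_eq_coe]
      exact List.perm_middle
    rw [e, e, e]
    have := (gi_isOp (F := F) (d := d)).p6 (↑x) ((l ++ r : List V) : Multiset V) a u v
    simp only at this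
    rw [this, map_add, map_smul]
  S1 x y z h := by
    rw [if_pos h, if_pos h]
    exact sb_S1 (toTheta_frame γ) x y z
  S2 u a b w y z h := by
    rw [if_pos (by simp; omega), if_pos (by simp; omega)]
    have h1 := sb_S2 (toTheta_frame γ) u a b w y z
    rw [← h1]
    congr 2
    apply List.map_congr_left
    intro p hp
    have hl := splits_length u p hp
    rw [if_pos (by simp; omega), if_pos (by omega)]
  S3 u x y z h := by
    have h1 := sb_S3 (toTheta_frame γ) u x y z
    have key : ∀ x y z : V, ((splits u).map (fun p => if p.1.length + 2 ≤ d then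
        sb (toTheta γ) p.1 (if p.2.length + 2 ≤ d then sb (toTheta γ) p.2 y z else 0) x
        else 0)).sum =
        ((splits u).map (fun p => sb (toTheta γ) p.1 (sb (toTheta γ) p.2 y z) x)).sum := by
      intro x y z
      congr 1
      apply List.map_congr_left
      intro p hp
      have hl := splits_length u p hp
      rw [if_pos (by omega), if_pos (by omega)]
    rw [key, key, key, if_pos (by simp; omega), if_pos (by simp; omega), if_pos (by simp; omega)]
    exact h1
  S4x x x' y h := by rw [Multiset.coe_eq_coe.2 h]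
  S4y x y y' h := by rw [Multiset.coe_eq_coe.2 h]

theorem toSab_corr (γ : GG F d V →ₗ[F] V) : Corr γ (toSab γ) :=
  ⟨fun _ _ _ h => if_pos h, fun _ _ => rfl⟩

theorem hom_iff [CharZero F] {γ : GG F d V →ₗ[F] V} {S : SabAlg F d V} (h : Corr γ S)
    {γ' : GG F d W →ₗ[F] W} {S' : SabAlg F d W} (h' : Corr γ' S') (f : V →ₗ[F] W) :
    IsHom S S' f ↔ IsHomG γ γ' f := by
  have hmap : ∀ s : Multiset V, s.map f = ((s.toList.map f : List W) : Multiset W) := by
    intro s
    rw [← Multiset.map_coe, Multiset.coe_toList]
  constructor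
  · intro hf
    have hEE := EE_eq_zero_of_hom (toTheta_frame γ) (toTheta_frame γ') (toTheta_nrm γ)
      (toTheta_nrm γ') d (toTheta_supp γ) (toTheta_supp γ') f (by
        intro x y z hx
        rw [← h.1 x y z hx, hf.1, h'.1 _ _ _ (by simpa using hx)])
    have key : f ∘ₗ γ = γ' ∘ₗ gmap d f := by
      apply gg_ext
      intro x
      rw [LinearMap.comp_apply, LinearMap.comp_apply, gmap_gi]
      rcases x with ⟨s, z⟩ | ⟨s, t⟩
      · by_cases hs : s = 0
        · subst hs
          simp only [symap, Multiset.map_zero]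
          rw [gi_isOp.p4 _ _ (Or.inl rfl), gi_isOp.p4 _ _ (Or.inl rfl), map_zero, map_zero,
            map_zero]
        · have h1 := hEE s z
          unfold EE at h1
          rw [toTheta_ne γ hs, toTheta_ne γ' (by rwa [Ne, Multiset.map_eq_zero])] at h1
          exact sub_eq_zero.1 h1
      · have h1 := hf.2 s.toList t.toList
        rw [h.2, h'.2, Multiset.coe_toList, Multiset.coe_toList, ← hmap, ← hmap] at h1
        exact h1
    intro g
    exact LinearMap.congr_fun key g
  · intro hf
    have hEE : ∀ s z, EE (toTheta γ) (toTheta γ') f s z = 0 := by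
      intro s z
      unfold EE
      by_cases hs : s = 0
      · subst hs
        rw [toTheta_zero, Multiset.map_zero, toTheta_zero, sub_self]
      · rw [toTheta_ne γ hs, toTheta_ne γ' (by rwa [Ne, Multiset.map_eq_zero]), hf, gmap_gi]
        exact sub_self _
    constructor
    · intro x y z
      by_cases hx : x.length + 2 ≤ d
      · have h1 := agree (toTheta_frame γ) (toTheta_frame γ') f x.length
          (fun s z _ => hEE s z) y z x le_rfl
        rw [hEE, hEE, sub_self, neg_zero] at h1
        rw [h.1 x y z hx, h'.1 _ _ _ (by simpa using hx)]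
        exact sub_eq_zero.1 h1
      · rw [S.br_out x y z (by omega), S'.br_out _ _ _ (by rw [List.length_map]; omega), map_zero]
    · intro x y
      rw [h.2, h'.2, hf, gmap_gi]
      rfl

theorem free_iff [CharZero F] {γ : GG F d V →ₗ[F] V} {S : SabAlg F d V} (h : Corr γ S)
    (X : Set V) : IsFreeOn S X ↔ IsFreeG γ X := by
  constructor
  · intro hf W _ _ γ' g
    obtain ⟨f, ⟨hf1, hf2⟩, hf3⟩ := hf W (toSab γ') g
    refine ⟨f, ⟨(hom_iff h (toSab_corr γ') f).1 hf1, hf2⟩, ?_⟩
    rintro f' ⟨hf', hf'2⟩
    exact hf3 f' ⟨(hom_iff h (toSab_corr γ') f').2 hf', hf'2⟩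
  · intro hf W _ _ S' g
    obtain ⟨γ', h'⟩ := exists_gamma S'
    obtain ⟨f, ⟨hf1, hf2⟩, hf3⟩ := hf W γ' g
    refine ⟨f, ⟨(hom_iff h h' f).2 hf1, hf2⟩, ?_⟩
    rintro f' ⟨hf', hf'2⟩
    exact hf3 f' ⟨(hom_iff h h' f').1 hf', hf'2⟩

/-- The Schreier property of the variety of degree `d` Sabinin algebras. -/
theorem schreier [CharZero F] (d : ℕ) : IsSchreier.{u} F d := by
  intro V _ _ S X hX B hB
  obtain ⟨γ, hγ⟩ := exists_gamma S
  obtain ⟨γB, hγB⟩ := exists_gamma (S.restrict B hB)
  have hi : IsHom (S.restrict B hB) S B.subtype := ⟨fun _ _ _ => rfl, fun _ _ => rfl⟩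
  obtain ⟨Y, hY⟩ := schreierG ((free_iff hγ X).1 hX) B γB ((hom_iff hγB hγ B.subtype).1 hi)
  exact ⟨Y, (free_iff hγB Y).2 hY⟩

end Pool.Agent.Helper12.Sab
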