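import Mathlib

set_option autoImplicit false

namespace Pool.Agent.Helper12.Sab

open Multiset

variable {α β : Type*} {M N : Type*} [AddCommGroup M] [AddCommGroup N]

/-- Sum over all ways of splitting a multiset into two parts. -/
def asum (s : Multiset α) (F : Multiset α → Multiset α → M) : M :=
  ((antidiagonal s).map (fun p => F p.1 p.2)).sum

theorem asum_zero (F : Multiset α → Multiset α → M) : asum 0 F = F 0 0 := by
  simp [asum]

theorem asum_cons (a : α) (s : Multiset α) (F : Multiset α → Multiset α → M) :
    asum (a ::ₘ s) F = asum s (fun u t => F u (a ::ₘ t)) + asum s (fun u t => F (a ::ₘ u) t) := by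
  simp only [asum, antidiagonal_cons, map_add, map_map, sum_add, Function.comp_def, Prod.map_fst,
    Prod.map_snd, id]

theorem asum_add (s : Multiset α) (F F' : Multiset α → Multiset α → M) :
    asum s (fun u t => F u t + F' u t) = asum s F + asum s F' := by
  simp only [asum, sum_map_add]


theorem asum_sub (s : Multiset α) (F F' : Multiset α → Multiset α → M) :
    asum s (fun u t => F u t - F' u t) = asum s F - asum s F' := by
  simp only [asum, sum_map_sub]

theorem asum_map_hom (s : Multiset α) (F : Multiset α → Multiset α → M) (φ : M →+ N) :
    φ (asum s F) = asum s (fun u t => φ (F u t)) := by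
  simp only [asum, map_multiset_sum, map_map, Function.comp_def]

theorem asum_neg (s : Multiset α) (F : Multiset α → Multiset α → M) :
    asum s (fun u t => - F u t) = - asum s F :=
  (asum_map_hom s F (negAddMonoidHom)).symm

theorem asum_smul {R : Type*} [Semiring R] [Module R M] (a : R) (s : Multiset α)
    (F : Multiset α → Multiset α → M) :
    asum s (fun u t => a • F u t) = a • asum s F :=
  (asum_map_hom s F (DistribSMul.toAddMonoidHom M a)).symm

theorem asum_congr (s : Multiset α) (F F' : Multiset α → Multiset α → M)
    (h : ∀ u t, u + t = s → F u t = F' u t) : asum s F = asum s F' := by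
  unfold asum
  congr 1
  apply map_congr rfl
  intro p hp
  exact h _ _ (mem_antidiagonal.1 hp)

theorem asum_comm (s : Multiset α) (F : Multiset α → Multiset α → M) :
    asum s F = asum s (fun u t => F t u) := by
  induction s using Multiset.induction generalizing F with
  | empty => simp [asum_zero]
  | cons a s ih =>
    rw [asum_cons, asum_cons, ih, ih (fun u t => F (a ::ₘ u) t), add_comm]

theorem asum_assoc (s : Multiset α) (F : Multiset α → Multiset α → Multiset α → M) :
    asum s (fun u t => asum t (fun a b => F u a b)) =
      asum s (fun u t => asum u (fun a b => F a b t)) := by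
  induction s using Multiset.induction generalizing F with
  | empty => simp [asum_zero]
  | cons x s ih =>
    simp only [asum_cons, asum_add, ih]
    abel

theorem asum_map (f : α → β) (s : Multiset α) (F : Multiset β → Multiset β → M) :
    asum (s.map f) F = asum s (fun u t => F (u.map f) (t.map f)) := by
  induction s using Multiset.induction generalizing F with
  | empty => simp [asum_zero]
  | cons a s ih =>
    simp only [map_cons, asum_cons, ih]

/-- The three-fold sum is symmetric in the last two arguments. -/
theorem asum_assoc_swap (s : Multiset α) (F : Multiset α → Multiset α → Multiset α → M) :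
    asum s (fun u t => asum u (fun a b => F a b t)) =
      asum s (fun u t => asum u (fun a b => F a t b)) := by
  rw [← asum_assoc, ← asum_assoc s (fun a b t => F a t b)]
  congr 1
  funext u t
  exact asum_comm t (fun a b => F u a b)

/-- Isolating the term with empty second part. -/
theorem asum_split (s : Multiset α) (F F' : Multiset α → Multiset α → M)
    (h : ∀ u t, u + t = s → t ≠ 0 → F u t = F' u t) :
    asum s F - asum s F' = F s 0 - F' s 0 := by
  induction s using Multiset.induction generalizing F F' with
  | empty => simp [asum_zero]
  | cons a s ih =>
    rw [asum_cons, asum_cons]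
    have h1 : asum s (fun u t => F u (a ::ₘ t)) = asum s (fun u t => F' u (a ::ₘ t)) := by
      apply asum_congr
      intro u t hut
      apply h
      · rw [← hut, add_cons]
      · exact cons_ne_zero
    have h2 := ih (fun u t => F (a ::ₘ u) t) (fun u t => F' (a ::ₘ u) t) (by
      intro u t hut ht
      apply h _ _ _ ht
      rw [← hut, cons_add])
    rw [h1, ← h2]
    abel

end Pool.Agent.Helper12.Sab
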