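import Pool.Agent.Helper12.Sab.Norm

set_option autoImplicit false

namespace Pool.Agent.Helper12.Sab

open Multiset

section lin

variable {R : Type*} [CommRing R] {V : Type*} [AddCommGroup V] [Module R V]
  {M : Type*} [AddCommGroup M] [Module R M]

omit [AddCommGroup V] [Module R V] in
theorem D_flin {θ : Multiset V → V → V} (a : R) (v : V) (f g : Multiset V → M) (s : Multiset V) :
    D θ v (fun t => a • f t + g t) s = a • D θ v f s + D θ v g s := by
  unfold D
  rw [asum_add, asum_smul]

omit [AddCommGroup V] [Module R V] in
theorem Dl_flin {θ : Multiset V → V → V} (a : R) (l : List V) (f g : Multiset V → M) :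
    Dl θ l (fun t => a • f t + g t) = fun s => a • Dl θ l f s + Dl θ l g s := by
  induction l with
  | nil => rfl
  | cons x l ih =>
    rw [Dl_cons, ih]
    funext s
    exact D_flin a x _ _ s

theorem sb_lin_x {θ : Multiset V → V → V} (h : IsFrame R θ) (l r : List V) (a : R) (u v y z : V) :
    sb θ (l ++ (a • u + v) :: r) y z = a • sb θ (l ++ u :: r) y z + sb θ (l ++ v :: r) y z := by
  unfold sb
  simp only [Dl_append, Dl_cons]
  have e : D θ (a • u + v) (Dl θ r (cc θ y z)) =
      fun s => a • D θ u (Dl θ r (cc θ y z)) s + D θ v (Dl θ r (cc θ y z)) s :=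
    funext (D_lin h a u v (Dl_mlin h r (cc_mlin h y z)))
  rw [e, Dl_flin]

theorem sb_lin_y {θ : Multiset V → V → V} (h : IsFrame R θ) (x : List V) (a : R) (u v z : V) :
    sb θ x (a • u + v) z = a • sb θ x u z + sb θ x v z := by
  unfold sb
  have e : cc θ (a • u + v) z = fun s => a • cc θ u z s + cc θ v z s :=
    funext (cc_lin_left h a u v z)
  rw [e, Dl_flin]

theorem sb_lin_z {θ : Multiset V → V → V} (h : IsFrame R θ) (x : List V) (a : R) (y u v : V) :
    sb θ x y (a • u + v) = a • sb θ x y u + sb θ x y v := by
  unfold sb
  have e : cc θ y (a • u + v) = fun s => a • cc θ y u s + cc θ y v s :=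
    funext (cc_lin_right h a y u v)
  rw [e, Dl_flin]

end lin

universe u

variable {F : Type u} [Field F] {d : ℕ} {V : Type u} [AddCommGroup V] [Module F V]

theorem step [CharZero F] (S : SabAlg F d V) (k : ℕ) (hk : k + 2 ≤ d)
    (θ : Multiset V → V → V) (h : IsFrame F θ) (hN : Nrm θ)
    (hsup : ∀ s z, k < card s → θ s z = 0)
    (hm : ∀ (x : List V) (y z : V), x.length < k → sb θ x y z = S.br x y z) :
    ∃ θ' : Multiset V → V → V, IsFrame F θ' ∧ Nrm θ' ∧ (∀ s z, k + 1 < card s → θ' s z = 0) ∧
      ∀ (x : List V) (y z : V), x.length < k + 1 → sb θ' x y z = S.br x y z := by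
  classical
  -- the difference in arity `k + 2`
  let del : List V → V → V → V := fun x y z => S.br x y z - sb θ x y z
  have del_def : ∀ x y z, del x y z = S.br x y z - sb θ x y z := fun _ _ _ => rfl
  have swap : ∀ (u : List V) (a b : V) (w : List V) (y z : V), u.length + w.length + 2 = k →
      del (u ++ a :: b :: w) y z = del (u ++ b :: a :: w) y z := by
    intro u a b w y z hl
    have h1 := S.S2 u a b w y z (by omega)
    have h2 := sb_S2 h u a b w y z
    have h3 : ((splits u).map (fun p => S.br (p.1 ++ S.br p.2 a b :: w) y z)) =
        ((splits u).map (fun p => sb θ (p.1 ++ sb θ p.2 a b :: w) y z)) := by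
      apply List.map_congr_left
      intro p hp
      have hpl := splits_length u p hp
      rw [hm p.2 a b (by omega), hm _ y z (by
        simp only [List.length_append, List.length_cons]; omega)]
    rw [h3] at h1
    rw [del_def, del_def]
    have h4 := h1.trans h2.symm
    rw [add_left_inj] at h4
    rw [sub_eq_sub_iff_add_eq_add] at h4 ⊢
    rw [h4]
    abel
  have perm_aux : ∀ (x x' : List V), x.Perm x' → ∀ (pre : List V) (y z : V),
      pre.length + x.length = k → del (pre ++ x) y z = del (pre ++ x') y z := by
    intro x x' hp
    induction hp with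
    | nil => intro pre y z _; rfl
    | cons a _ ih =>
      intro pre y z hl
      have := ih (pre ++ [a]) y z (by
        simp only [List.length_append, List.length_cons, List.length_nil] at hl ⊢; omega)
      simpa using this
    | swap a b l =>
      intro pre y z hl
      exact swap pre b a l y z (by
        simp only [List.length_cons] at hl; omega)
    | trans h1 _ ih1 ih2 =>
      intro pre y z hl
      rw [ih1 pre y z hl, ih2 pre y z (by rw [← h1.length_eq]; exact hl)]
  have perm : ∀ (x x' : List V) (y z : V), x.Perm x' → x.length = k →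
      del x y z = del x' y z := by
    intro x x' y z hp hl
    have := perm_aux x x' hp [] y z (by simpa using hl)
    simpa using this
  -- as a function of multisets
  let dm : Multiset V → V → V → V := fun s y z => del s.toList y z
  have dm_coe : ∀ (x : List V) (y z : V), x.length = k → dm (↑x) y z = del x y z := by
    intro x y z hl
    apply perm
    · exact Multiset.coe_eq_coe.1 (coe_toList _)
    · rw [length_toList, coe_card, hl]
  have dm_cons : ∀ (s : Multiset V) (x y z : V), card s + 1 = k →
      dm (x ::ₘ s) y z = del (s.toList ++ [x]) y z := by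
    intro s x y z hs
    have e : x ::ₘ s = ↑(s.toList ++ [x]) := by
      rw [← coe_add, coe_toList, add_comm]
      rfl
    rw [e]
    apply dm_coe
    simp only [List.length_append, length_toList, List.length_cons, List.length_nil]
    omega
  have dm_S1 : ∀ (s : Multiset V) (y z : V), card s = k → dm s z y = - dm s y z := by
    intro s y z hs
    have h1 := S.S1 s.toList y z (by rw [length_toList]; omega)
    have h2 := sb_S1 h s.toList y z
    change S.br s.toList z y - sb θ s.toList z y = - (S.br s.toList y z - sb θ s.toList y z)
    rw [eq_neg_of_add_eq_zero_right h1, eq_neg_of_add_eq_zero_right h2]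
    abel
  have dm_S3 : ∀ (s : Multiset V) (x y z : V), card s + 1 = k →
      dm (x ::ₘ s) y z + dm (y ::ₘ s) z x + dm (z ::ₘ s) x y = 0 := by
    intro s x y z hs
    rw [dm_cons s x y z hs, dm_cons s y z x hs, dm_cons s z x y hs]
    set u := s.toList with hu
    have hul : u.length = card s := length_toList s
    have h1 := S.S3 u x y z (by omega)
    have h2 := sb_S3 h u x y z
    have h3 : ∀ x y z : V, ((splits u).map (fun p => S.br p.1 (S.br p.2 y z) x)) =
        ((splits u).map (fun p => sb θ p.1 (sb θ p.2 y z) x)) := by
      intro x y z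
      apply List.map_congr_left
      intro p hp
      have hpl := splits_length u p hp
      rw [hm p.2 y z (by omega), hm p.1 _ _ (by omega)]
    rw [h3 x y z, h3 y z x, h3 z x y] at h1
    simp only [del_def]
    have h4 := congrArg₂ (· - ·) h1 h2
    simp only [sub_self] at h4
    rw [← h4]
    abel
  have dm_lin_y : ∀ (s : Multiset V) (a : F) (y y' z : V),
      dm s (a • y + y') z = a • dm s y z + dm s y' z := by
    intro s a y y' z
    change S.br _ _ _ - sb θ _ _ _ = _
    rw [S.br_lin_y, sb_lin_y h]
    change _ = a • (S.br _ _ _ - sb θ _ _ _) + (S.br _ _ _ - sb θ _ _ _)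
    rw [smul_sub]
    abel
  have dm_lin_z : ∀ (s : Multiset V) (a : F) (y z z' : V),
      dm s y (a • z + z') = a • dm s y z + dm s y z' := by
    intro s a y z z'
    change S.br _ _ _ - sb θ _ _ _ = _
    rw [S.br_lin_z, sb_lin_z h]
    change _ = a • (S.br _ _ _ - sb θ _ _ _) + (S.br _ _ _ - sb θ _ _ _)
    rw [smul_sub]
    abel
  have dm_mlin : ∀ (s : Multiset V) (a : F) (v v' y z : V), card s + 1 = k →
      dm ((a • v + v') ::ₘ s) y z = a • dm (v ::ₘ s) y z + dm (v' ::ₘ s) y z := by
    intro s a v v' y z hs
    rw [dm_cons s _ y z hs, dm_cons s _ y z hs, dm_cons s _ y z hs]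
    simp only [del_def]
    rw [S.br_lin_x, sb_lin_x h, smul_sub]
    abel
  -- the correction of the frame
  let κ : F := 1 / ((k + 2 : ℕ) : F)
  have hκ : ((k + 2 : ℕ) : F) ≠ 0 := Nat.cast_ne_zero.2 (by omega)
  let vt : Multiset V → V → V := fun s z =>
    if card s = k + 1 then κ • psum s (fun x t => dm t z x) else 0
  have vt_def : ∀ s z, vt s z =
    if card s = k + 1 then κ • psum s (fun x t => dm t z x) else 0 := fun _ _ => rfl
  let θ' : Multiset V → V → V := fun s z => θ s z + vt s z
  have hθ'_def : ∀ s z, θ' s z = θ s z + vt s z := fun _ _ => rfl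
  have vt_lin : ∀ (s : Multiset V) (a : F) (u v : V),
      vt s (a • u + v) = a • vt s u + vt s v := by
    intro s a u v
    rw [vt_def, vt_def, vt_def]
    split_ifs with hs
    · rw [smul_comm a κ, ← smul_add]
      congr 1
      rw [← psum_smul, ← psum_add]
      simp only [dm_lin_y]
    · simp
  have vt_mlin : ∀ w, MLin F (fun s => vt s w) := by
    intro w s a u v
    simp only [vt_def, card_cons]
    split_ifs with hs
    · simp only [psum_cons]
      have e : psum s (fun x t => dm ((a • u + v) ::ₘ t) w x) =
          a • psum s (fun x t => dm (u ::ₘ t) w x) + psum s (fun x t => dm (v ::ₘ t) w x) := by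
        rw [← psum_smul, ← psum_add]
        apply psum_congr
        intro x t hxt
        apply dm_mlin
        have := congrArg card hxt
        rw [card_cons] at this
        omega
      rw [e, dm_lin_z, smul_comm a κ, ← smul_add]
      congr 1
      rw [smul_add]
      abel
    · simp
  have hθ' : IsFrame F θ' := by
    refine ⟨?_, ?_, ?_⟩
    · intro v
      rw [hθ'_def, h.zero, vt_def, if_neg (by simp), add_zero]
    · intro s a u v
      rw [hθ'_def, hθ'_def, hθ'_def, h.lin, vt_lin, smul_add]
      abel
    · intro w
      exact (h.mlin w).add (vt_mlin w)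
  have hN' : Nrm θ' := by
    intro s hs
    simp only [hθ'_def]
    rw [psum_add, hN s hs, zero_add]
    by_cases hc : card s = k + 2
    · have e : psum s (fun x t => vt t x) = κ • psum s (fun x t => psum t (fun y r => dm r x y)) := by
        rw [← psum_smul]
        apply psum_congr
        intro x t hxt
        have := congrArg card hxt
        rw [card_cons] at this
        rw [vt_def, if_pos (by omega)]
      have e2 : psum s (fun x t => psum t (fun y r => dm r x y)) =
          psum s (fun x t => psum t (fun y r => if card r = k then dm r x y else 0)) := by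
        apply psum_congr
        intro x t hxt
        apply psum_congr
        intro y r hyr
        have h1 := congrArg card hxt
        have h2 := congrArg card hyr
        rw [card_cons] at h1 h2
        rw [if_pos (by omega)]
      rw [e, e2, psum_psum_antisymm, smul_zero]
      intro x y t
      split_ifs with ht
      · rw [dm_S1 t x y ht]
        abel
      · simp
    · rw [psum_congr s _ (fun _ _ => (0 : V)), psum_const, smul_zero]
      intro x t hxt
      have := congrArg card hxt
      rw [card_cons] at this
      rw [vt_def, if_neg (by omega)]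
  refine ⟨θ', hθ', hN', ?_, ?_⟩
  · intro s z hs
    rw [hθ'_def, hsup s z (by omega), vt_def, if_neg (by omega), add_zero]
  · intro x y z hx
    have hEE : ∀ s z, EE (R := F) θ θ' LinearMap.id s z = - vt s z := by
      intro s z
      unfold EE
      rw [LinearMap.id_apply, LinearMap.id_apply]
      have : Multiset.map (LinearMap.id : V →ₗ[F] V) s = s := by
        simp
      rw [this, hθ'_def]
      abel
    have hEE0 : ∀ s z, card s ≤ k → EE (R := F) θ θ' LinearMap.id s z = 0 := by
      intro s z hs
      rw [hEE, vt_def, if_neg (by omega), neg_zero]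
    have h1 := agree h hθ' LinearMap.id k hEE0 y z x (by omega)
    simp only [LinearMap.id_apply, hEE] at h1
    have e1 : List.map (LinearMap.id : V →ₗ[F] V) x = x := by simp
    rw [e1] at h1
    rcases Nat.lt_or_ge x.length k with hlt | hge
    · rw [vt_def, vt_def, if_neg (by rw [card_cons, coe_card]; omega),
        if_neg (by rw [card_cons, coe_card]; omega)] at h1
      simp only [neg_zero, sub_self] at h1
      rw [← sub_eq_zero.1 h1]
      exact hm x y z hlt
    · have hxl : x.length = k := by omega
      rw [vt_def, vt_def, if_pos (by rw [card_cons, coe_card]; omega),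
        if_pos (by rw [card_cons, coe_card]; omega), psum_cons, psum_cons] at h1
      have hcx : card (x : Multiset V) = k := by rw [coe_card, hxl]
      have e2 : psum (x : Multiset V) (fun x' t => dm (z ::ₘ t) y x') -
          psum (x : Multiset V) (fun x' t => dm (y ::ₘ t) z x') = k • dm ↑x y z := by
        rw [← psum_sub, ← hcx, ← psum_const]
        apply psum_congr
        intro x' t hxt
        have h5 := congrArg card hxt
        rw [card_cons] at h5
        have h2 := dm_S3 t x' y z (by omega)
        have h3 := dm_S1 (z ::ₘ t) x' y (by rw [card_cons]; omega)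
        rw [hxt] at h2
        rw [h3]
        have h4 : dm (↑x) y z = - (dm (y ::ₘ t) z x' + dm (z ::ₘ t) x' y) := by
          rw [eq_neg_iff_add_eq_zero, ← h2]
          abel
        rw [h4]
        abel
      have e3 : dm (↑x) z y = - dm (↑x) y z := dm_S1 _ y z hcx
      rw [e3] at h1
      have e4 : sb θ x y z - sb θ' x y z = - dm ↑x y z := by
        rw [h1]
        have e5 : psum (x : Multiset V) (fun x' t => dm (z ::ₘ t) y x') =
          k • dm ↑x y z + psum (x : Multiset V) (fun x' t => dm (y ::ₘ t) z x') := by
          rw [← e2]; abel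
        rw [e5]
        have e6 : -(-(κ • (-dm ↑x y z + psum (x : Multiset V) (fun x t => dm (y ::ₘ t) z x))) -
            -(κ • (dm ↑x y z + (k • dm ↑x y z +
              psum (x : Multiset V) (fun x' t => dm (y ::ₘ t) z x'))))) =
            -(κ • ((k + 2 : ℕ) • dm ↑x y z)) := by
          rw [← smul_neg, ← smul_neg, ← smul_sub, ← smul_neg, ← smul_neg]
          congr 1
          rw [add_smul, two_smul]
          abel
        rw [e6, ← Nat.cast_smul_eq_nsmul F, smul_smul]
        have e7 : κ * ((k + 2 : ℕ) : F) = 1 := by
          simp only [κ]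
          exact one_div_mul_cancel hκ
        rw [e7, one_smul]
      rw [dm_coe x y z hxl, del_def] at e4
      have e8 : sb θ' x y z = sb θ x y z - (sb θ x y z - sb θ' x y z) := by abel
      rw [e8, e4]
      abel

/-- Every degree `d` Sabinin algebra comes from a unique normalised frame; existence. -/
theorem exists_frame [CharZero F] (S : SabAlg F d V) :
    ∃ θ : Multiset V → V → V, IsFrame F θ ∧ Nrm θ ∧ (∀ s z, s ≠ 0 → d ≤ card s → θ s z = 0) ∧
      ∀ (x : List V) (y z : V), x.length + 2 ≤ d → sb θ x y z = S.br x y z := by
  classical
  have base : ∃ θ : Multiset V → V → V, IsFrame F θ ∧ Nrm θ ∧ (∀ s z, 0 < card s → θ s z = 0) ∧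
      ∀ (x : List V) (y z : V), x.length < 0 → sb θ x y z = S.br x y z := by
    refine ⟨fun s z => if card s = 0 then z else 0, ⟨?_, ?_, ?_⟩, ?_, ?_, ?_⟩
    · intro v; simp
    · intro s a u v
      by_cases hs : card s = 0 <;> simp [hs]
    · intro w s a u v
      simp
    · intro s hs
      rw [psum_congr s _ (fun _ _ => (0 : V)), psum_const, smul_zero]
      intro x t hxt
      have := congrArg card hxt
      rw [card_cons] at this
      change (if card t = 0 then x else 0) = 0
      rw [if_neg (by omega)]
    · intro s z hs
      change (if card s = 0 then z else 0) = 0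
      rw [if_neg (by omega)]
    · intro x y z hx
      exact absurd hx (Nat.not_lt_zero _)
  have main : ∀ k : ℕ, (k = 0 ∨ k + 1 ≤ d) → ∃ θ : Multiset V → V → V, IsFrame F θ ∧ Nrm θ ∧
      (∀ s z, k < card s → θ s z = 0) ∧
      ∀ (x : List V) (y z : V), x.length < k → sb θ x y z = S.br x y z := by
    intro k
    induction k with
    | zero => intro _; exact base
    | succ k ih =>
      intro hk
      have hk' : k + 2 ≤ d := by
        rcases hk with h | h
        · exact absurd h (by omega)
        · exact h
      obtain ⟨θ, h1, h2, h3, h4⟩ := ih (by omega)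
      exact step S k hk' θ h1 h2 h3 h4
  obtain ⟨θ, h1, h2, h3, h4⟩ := main (d - 1) (by omega)
  refine ⟨θ, h1, h2, ?_, ?_⟩
  · intro s z hs hd
    have := card_pos.2 hs
    exact h3 s z (by omega)
  · intro x y z hx
    exact h4 x y z (by omega)

end Pool.Agent.Helper12.Sab
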