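import Mathlib

/-!
# Degree `d` Sabinin algebras, free algebras, the Schreier property

Everything is over a field `F`; vector spaces are `F`-modules.
-/

set_option autoImplicit false

namespace Pool.Agent.Helper12.Sab

universe u

/-- `splits l` lists all `2 ^ length l` ways of splitting `l = [x₁, …, x_r]` into two complementary
subsequences `([x_{α₁}, …, x_{α_k}], [x_{α_{k+1}}, …, x_{α_r}])` with `α₁ < … < α_k` and
`α_{k+1} < … < α_r`, `0 ≤ k ≤ r`. -/
def splits {α : Type*} : List α → List (List α × List α)
  | [] => [([], [])]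
  | a :: l => (splits l).map (fun p => (a :: p.1, p.2)) ++ (splits l).map (fun p => (p.1, a :: p.2))

/-- The structure of a *degree `d` Sabinin algebra* on the vector space `V`.

* `br [x₁, …, x_m] y z` is `⟨x₁, …, x_m; y, z⟩`; it is data only when its arity `m + 2` is at most
  `d` (`br_out`: outside this range the function is `0`, i.e. there is no such operation).
* `Phi [x₁, …, x_m] [y₁, …, y_n]` is `Φ(x₁, …, x_m; y₁, …, y_n)`; it is data only when `m ≥ 1`,
  `n ≥ 2` and its arity `m + n` is at most `d` (`Phi_out`).
* all operations are linear in each argument;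
* `S1`, `S2`, `S3`, `S4x`, `S4y` are the identities (S1)-(S4) of degree at most `d`, where the
  degree of an identity is the number of variables it involves. -/
structure SabAlg (F : Type u) [Field F] (d : ℕ) (V : Type u) [AddCommGroup V] [Module F V] where
  /-- the operations `⟨x₁, …, x_m; y, z⟩` -/
  br : List V → V → V → V
  /-- the operations `Φ(x₁, …, x_m; y₁, …, y_n)` -/
  Phi : List V → List V → V
  br_out : ∀ (x : List V) (y z : V), d < x.length + 2 → br x y z = 0
  Phi_out : ∀ x y : List V, ¬ (1 ≤ x.length ∧ 2 ≤ y.length ∧ x.length + y.length ≤ d) →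
    Phi x y = 0
  br_lin_x : ∀ (l r : List V) (a : F) (u v y z : V),
    br (l ++ (a • u + v) :: r) y z = a • br (l ++ u :: r) y z + br (l ++ v :: r) y z
  br_lin_y : ∀ (x : List V) (a : F) (u v z : V), br x (a • u + v) z = a • br x u z + br x v z
  br_lin_z : ∀ (x : List V) (a : F) (y u v : V), br x y (a • u + v) = a • br x y u + br x y v
  Phi_lin_x : ∀ (l r y : List V) (a : F) (u v : V),
    Phi (l ++ (a • u + v) :: r) y = a • Phi (l ++ u :: r) y + Phi (l ++ v :: r) y
  Phi_lin_y : ∀ (x l r : List V) (a : F) (u v : V),
    Phi x (l ++ (a • u + v) :: r) = a • Phi x (l ++ u :: r) + Phi x (l ++ v :: r)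
  S1 : ∀ (x : List V) (y z : V), x.length + 2 ≤ d → br x y z + br x z y = 0
  S2 : ∀ (u : List V) (a b : V) (w : List V) (y z : V), u.length + w.length + 4 ≤ d →
    br (u ++ a :: b :: w) y z - br (u ++ b :: a :: w) y z +
      ((splits u).map (fun p => br (p.1 ++ br p.2 a b :: w) y z)).sum = 0
  S3 : ∀ (u : List V) (x y z : V), u.length + 3 ≤ d →
    (br (u ++ [x]) y z + ((splits u).map (fun p => br p.1 (br p.2 y z) x)).sum) +
    (br (u ++ [y]) z x + ((splits u).map (fun p => br p.1 (br p.2 z x) y)).sum) +
    (br (u ++ [z]) x y + ((splits u).map (fun p => br p.1 (br p.2 x y) z)).sum) = 0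
  S4x : ∀ x x' y : List V, x.Perm x' → Phi x y = Phi x' y
  S4y : ∀ x y y' : List V, y.Perm y' → Phi x y = Phi x y'

section

variable {F : Type u} [Field F] {d : ℕ} {V : Type u} [AddCommGroup V] [Module F V]
  {W : Type u} [AddCommGroup W] [Module F W]

/-- Homomorphisms of degree `d` Sabinin algebras: linear maps preserving all operations. -/
def IsHom (S : SabAlg F d V) (T : SabAlg F d W) (f : V →ₗ[F] W) : Prop :=
  (∀ (x : List V) (y z : V), f (S.br x y z) = T.br (x.map f) (f y) (f z)) ∧
    (∀ x y : List V, f (S.Phi x y) = T.Phi (x.map f) (y.map f))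

/-- Subalgebras: subspaces closed under all operations. -/
structure IsSubalgebra (S : SabAlg F d V) (B : Submodule F V) : Prop where
  br_mem : ∀ (x : List V) (y z : V), (∀ v ∈ x, v ∈ B) → y ∈ B → z ∈ B → S.br x y z ∈ B
  Phi_mem : ∀ x y : List V, (∀ v ∈ x, v ∈ B) → (∀ v ∈ y, v ∈ B) → S.Phi x y ∈ B

theorem splits_map {α β : Type*} (f : α → β) (u : List α) :
    splits (u.map f) = (splits u).map (fun p => (p.1.map f, p.2.map f)) := by
  induction u with
  | nil => simp [splits]
  | cons a l ih =>
    simp only [List.map_cons, splits, ih, List.map_append, List.map_map, Function.comp_def]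

theorem mem_map_val {B : Submodule F V} (x : List B) : ∀ v ∈ x.map Subtype.val, v ∈ B := by
  intro v hv
  obtain ⟨w, -, rfl⟩ := List.mem_map.1 hv
  exact w.2

theorem val_list_sum {B : Submodule F V} (l : List B) :
    ((l.sum : B) : V) = (l.map Subtype.val).sum := by
  induction l with
  | nil => simp
  | cons a l ih => simp [ih]

/-- A subalgebra is a degree `d` Sabinin algebra with the restricted operations. -/
def SabAlg.restrict (S : SabAlg F d V) (B : Submodule F V) (hB : IsSubalgebra S B) :
    SabAlg F d B where
  br x y z := ⟨S.br (x.map Subtype.val) y z, hB.br_mem _ _ _ (mem_map_val x) y.2 z.2⟩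
  Phi x y := ⟨S.Phi (x.map Subtype.val) (y.map Subtype.val),
    hB.Phi_mem _ _ (mem_map_val x) (mem_map_val y)⟩
  br_out x y z h := Subtype.ext (S.br_out _ _ _ (by simpa using h))
  Phi_out x y h := Subtype.ext (S.Phi_out _ _ (by simpa using h))
  br_lin_x l r a u v y z := Subtype.ext (by
    simpa using S.br_lin_x (l.map Subtype.val) (r.map Subtype.val) a u v y z)
  br_lin_y x a u v z := Subtype.ext (by
    simpa using S.br_lin_y (x.map Subtype.val) a u v z)
  br_lin_z x a y u v := Subtype.ext (by
    simpa using S.br_lin_z (x.map Subtype.val) a y u v)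
  Phi_lin_x l r y a u v := Subtype.ext (by
    simpa using S.Phi_lin_x (l.map Subtype.val) (r.map Subtype.val) (y.map Subtype.val) a u v)
  Phi_lin_y x l r a u v := Subtype.ext (by
    simpa using S.Phi_lin_y (x.map Subtype.val) (l.map Subtype.val) (r.map Subtype.val) a u v)
  S1 x y z h := Subtype.ext (by
    simpa using S.S1 (x.map Subtype.val) y z (by simpa using h))
  S2 u a b w y z h := Subtype.ext (by
    have := S.S2 (u.map Subtype.val) a b (w.map Subtype.val) y z (by simpa using h)
    rw [splits_map, List.map_map] at this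
    simp only [Submodule.coe_add, Submodule.coe_sub, val_list_sum, List.map_map, List.map_append,
      List.map_cons, Submodule.coe_zero, Function.comp_def] at this ⊢
    exact this)
  S3 u x y z h := Subtype.ext (by
    have := S.S3 (u.map Subtype.val) x y z (by simpa using h)
    simp only [splits_map, List.map_map] at this
    simp only [Submodule.coe_add, val_list_sum, List.map_map, List.map_append,
      List.map_cons, List.map_nil, Submodule.coe_zero, Function.comp_def] at this ⊢
    exact this)
  S4x x x' y h := Subtype.ext (S.S4x _ _ _ (h.map _))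
  S4y x y y' h := Subtype.ext (S.S4y _ _ _ (h.map _))

/-- `S` is a free degree `d` Sabinin algebra with free generating set `X`: every map from `X` to a
degree `d` Sabinin algebra extends uniquely to a homomorphism. -/
def IsFreeOn (S : SabAlg F d V) (X : Set V) : Prop :=
  ∀ (W : Type u) [AddCommGroup W] [Module F W] (T : SabAlg F d W) (g : X → W),
    ∃! f : V →ₗ[F] W, IsHom S T f ∧ ∀ x : X, f x = g x

end

/-- The variety `𝒮_d` over `F` is a Schreier variety: every subalgebra of every free algebra is
free. -/
def IsSchreier (F : Type u) [Field F] (d : ℕ) : Prop :=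
  ∀ (V : Type u) [AddCommGroup V] [Module F V] (S : SabAlg F d V) (X : Set V), IsFreeOn S X →
    ∀ (B : Submodule F V) (hB : IsSubalgebra S B), ∃ Y : Set B, IsFreeOn (S.restrict B hB) Y

end Pool.Agent.Helper12.Sab
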