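import Pool.Agent.Helper12.Sab.Frame
import Pool.Agent.Helper12.Sab.Defs

set_option autoImplicit false

namespace Pool.Agent.Helper12.Sab

open Multiset

variable {R : Type*} [CommRing R] {V : Type*} [AddCommGroup V] [Module R V]
  {M : Type*} [AddCommGroup M] [Module R M]

theorem asum3_rot {α : Type*} {M : Type*} [AddCommGroup M] (s : Multiset α)
    (F : Multiset α → Multiset α → Multiset α → M) :
    asum s (fun p q => asum q (fun u t => F p u t)) =
      asum s (fun u r => asum r (fun t p => F p u t)) := by
  rw [asum_assoc]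
  have h1 : asum s (fun u t => asum u (fun a b => F a b t)) =
      asum s (fun u t => asum u (fun a b => F b a t)) := by
    congr 1
    funext u t
    exact asum_comm u (fun a b => F a b t)
  rw [h1, ← asum_assoc s (fun a b t => F b a t)]
  congr 1
  funext u t
  exact asum_comm t (fun a b => F a u b)

/-- Torsion-type expression of a frame. -/
def tau (θ : Multiset V → V → V) (y z : V) (s : Multiset V) : V :=
  asum s (fun p q => θ (θ q y ::ₘ p) z - θ (θ q z ::ₘ p) y)

/-- Structure functions of a frame. -/
def cc (θ : Multiset V → V → V) (y z : V) : Multiset V → V :=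
  solve θ (fun s => - tau θ y z s)

/-- Product of a function with a family depending on its value. -/
def star (c : Multiset V → V) (G : V → Multiset V → M) (s : Multiset V) : M :=
  asum s (fun a b => G (c a) b)

theorem D_comm {θ : Multiset V → V → V} (h : IsFrame R θ) {f : Multiset V → M} (hf : MLin R f)
    (y z : V) (s : Multiset V) :
    D θ y (D θ z f) s - D θ z (D θ y f) s = - star (cc θ y z) (fun w => D θ w f) s := by
  have hD : ∀ y z : V, D θ y (D θ z f) s =
      asum s (fun u t => asum u (fun a b => f (θ (θ t y ::ₘ b) z ::ₘ a))) +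
      asum s (fun u t => asum u (fun a b => f (θ b z ::ₘ θ t y ::ₘ a))) := by
    intro y z
    rw [← asum_add]
    unfold D
    congr 1
    funext u t
    rw [asum_cons]
  have hB : asum s (fun u t => asum u (fun a b => f (θ b z ::ₘ θ t y ::ₘ a))) =
      asum s (fun u t => asum u (fun a b => f (θ b y ::ₘ θ t z ::ₘ a))) := by
    rw [asum_assoc_swap s (fun a b t => f (θ b z ::ₘ θ t y ::ₘ a))]
    congr 1
    funext u t
    congr 1
    funext a b
    rw [cons_swap]
  have hA : asum s (fun u t => asum u (fun a b => f (θ (θ t y ::ₘ b) z ::ₘ a))) -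
      asum s (fun u t => asum u (fun a b => f (θ (θ t z ::ₘ b) y ::ₘ a))) =
      asum s (fun a q => f (tau θ y z q ::ₘ a)) := by
    rw [← asum_assoc s (fun a b t => f (θ (θ t y ::ₘ b) z ::ₘ a)),
      ← asum_assoc s (fun a b t => f (θ (θ t z ::ₘ b) y ::ₘ a)), ← asum_sub]
    congr 1
    funext a q
    rw [← asum_sub]
    have := asum_map_hom q (fun p t => θ (θ t y ::ₘ p) z - θ (θ t z ::ₘ p) y) (hf.hom a)
    simp only [MLin.hom, AddMonoidHom.coe_mk, ZeroHom.coe_mk] at this
    rw [tau, this]
    congr 1
    funext p t
    rw [hf.cons_sub]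
  have hR : star (cc θ y z) (fun w => D θ w f) s = - asum s (fun a q => f (tau θ y z q ::ₘ a)) := by
    unfold star D
    rw [asum3_rot s (fun p u t => f (θ t (cc θ y z p) ::ₘ u)), ← asum_neg]
    congr 1
    funext u r
    have h1 := asum_map_hom r (fun t p => θ t (cc θ y z p)) (hf.hom u)
    simp only [MLin.hom, AddMonoidHom.coe_mk, ZeroHom.coe_mk] at h1
    rw [← h1]
    have h2 := conv_solve h (fun s => - tau θ y z s) r
    unfold conv at h2
    change asum r (fun t p => θ t (cc θ y z p)) = _ at h2
    rw [h2, hf.cons_neg]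
  rw [hD y z, hD z y, hB, hR, neg_neg, ← hA]
  abel

/-- Leibniz rule. -/
theorem D_star {θ : Multiset V → V → V} (v : V) (c : Multiset V → V)
    (G : V → Multiset V → M) (hG0 : ∀ b, G 0 b = 0) (hG : ∀ w w' b, G (w + w') b = G w b + G w' b)
    (s : Multiset V) :
    D θ v (star c G) s = star c (fun w => D θ v (G w)) s + star (D θ v c) G s := by
  unfold D star
  simp only [asum_cons, asum_add]
  congr 1
  · rw [← asum_assoc s (fun a b t => G (c a) (θ t v ::ₘ b))]
  · rw [asum_assoc_swap s (fun a b t => G (c (θ t v ::ₘ a)) b)]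
    congr 1
    funext a' b
    let φ : V →+ M := ⟨⟨fun w => G w b, hG0 b⟩, fun w w' => hG w w' b⟩
    exact (asum_map_hom a' (fun u t => c (θ t v ::ₘ u)) φ).symm

/-- Iterated derivatives along a word. -/
def Dl (θ : Multiset V → V → V) (l : List V) (f : Multiset V → M) : Multiset V → M :=
  l.foldr (fun v g => D θ v g) f

omit [AddCommGroup V] in
theorem Dl_nil (θ : Multiset V → V → V) (f : Multiset V → M) : Dl θ [] f = f := rfl

omit [AddCommGroup V] in
theorem Dl_cons (θ : Multiset V → V → V) (x : V) (l : List V) (f : Multiset V → M) :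
    Dl θ (x :: l) f = D θ x (Dl θ l f) := rfl

omit [AddCommGroup V] in
theorem Dl_append (θ : Multiset V → V → V) (u w : List V) (f : Multiset V → M) :
    Dl θ (u ++ w) f = Dl θ u (Dl θ w f) := by
  simp [Dl]

theorem Dl_mlin {θ : Multiset V → V → V} (h : IsFrame R θ) (l : List V) {f : Multiset V → M}
    (hf : MLin R f) : MLin R (Dl θ l f) := by
  induction l with
  | nil => exact hf
  | cons x l ih => exact D_mlin h x ih

omit [AddCommGroup V] in
theorem Dl_fadd {θ : Multiset V → V → V} (l : List V) (f g : Multiset V → M) :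
    Dl θ l (fun t => f t + g t) = fun s => Dl θ l f s + Dl θ l g s := by
  induction l with
  | nil => rfl
  | cons x l ih =>
    rw [Dl_cons, ih]
    funext s
    exact D_fadd x _ _ s

omit [AddCommGroup V] in
theorem Dl_fzero {θ : Multiset V → V → V} (l : List V) :
    Dl θ l (fun _ => (0 : M)) = fun _ => 0 := by
  induction l with
  | nil => rfl
  | cons x l ih =>
    rw [Dl_cons, ih]
    funext s
    exact D_fzero x s

omit [AddCommGroup V] in
theorem Dl_fneg {θ : Multiset V → V → V} (l : List V) (f : Multiset V → M) :
    Dl θ l (fun t => - f t) = fun s => - Dl θ l f s := by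
  induction l with
  | nil => rfl
  | cons x l ih =>
    rw [Dl_cons, ih]
    funext s
    exact D_fneg x _ s

omit [AddCommGroup V] in
theorem Dl_fsub {θ : Multiset V → V → V} (l : List V) (f g : Multiset V → M) :
    Dl θ l (fun t => f t - g t) = fun s => Dl θ l f s - Dl θ l g s := by
  induction l with
  | nil => rfl
  | cons x l ih =>
    rw [Dl_cons, ih]
    funext s
    exact D_fsub x _ _ s

omit [AddCommGroup V] in
theorem D_fsum {ι : Type*} {θ : Multiset V → V → V} (v : V) (L : List ι)
    (F : ι → Multiset V → M) (s : Multiset V) :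
    D θ v (fun t => (L.map (fun p => F p t)).sum) s = (L.map (fun p => D θ v (F p) s)).sum := by
  induction L with
  | nil => simpa using D_fzero v s
  | cons p L ih =>
    simp only [List.map_cons, List.sum_cons]
    rw [D_fadd, ih]

theorem Dl_star {θ : Multiset V → V → V} (x : List V) (c : Multiset V → V)
    (G : V → Multiset V → M) (hG0 : ∀ b, G 0 b = 0) (hG : ∀ w w' b, G (w + w') b = G w b + G w' b)
    (s : Multiset V) :
    Dl θ x (star c G) s =
      ((splits x).map (fun p => star (Dl θ p.2 c) (fun w => Dl θ p.1 (G w)) s)).sum := by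
  induction x generalizing s with
  | nil => simp [splits, Dl_nil]
  | cons x l ih =>
    rw [Dl_cons]
    have e : Dl θ l (star c G) = fun s =>
        ((splits l).map (fun p => star (Dl θ p.2 c) (fun w => Dl θ p.1 (G w)) s)).sum :=
      funext ih
    rw [e, D_fsum]
    have hG0' : ∀ (p : List V) b, Dl θ p (G 0) b = 0 := by
      intro p b
      have : G 0 = fun _ => 0 := funext hG0
      rw [this, Dl_fzero]
    have hG' : ∀ (p : List V) w w' b, Dl θ p (G (w + w')) b =
        Dl θ p (G w) b + Dl θ p (G w') b := by
      intro p w w' b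
      have : G (w + w') = fun b => G w b + G w' b := funext (hG w w')
      rw [this, Dl_fadd]
    have e2 : ∀ p : List V × List V,
        D θ x (fun s => star (Dl θ p.2 c) (fun w => Dl θ p.1 (G w)) s) s =
        star (Dl θ p.2 c) (fun w => Dl θ (x :: p.1) (G w)) s +
        star (Dl θ (x :: p.2) c) (fun w => Dl θ p.1 (G w)) s := by
      intro p
      exact D_star x (Dl θ p.2 c) (fun w => Dl θ p.1 (G w)) (hG0' p.1) (hG' p.1) s
    simp only [e2, splits, List.map_append, List.map_map, Function.comp_def, List.sum_append]
    exact List.sum_map_add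

/-- The Sabinin operation of a frame. -/
def sb (θ : Multiset V → V → V) (x : List V) (y z : V) : V := Dl θ x (cc θ y z) 0

omit [AddCommGroup V] in
theorem star_zero (c : Multiset V → V) (G : V → Multiset V → M) : star c G 0 = G (c 0) 0 := by
  simp [star, asum_zero]

theorem tau_swap (θ : Multiset V → V → V) (y z : V) (s : Multiset V) :
    tau θ z y s = - tau θ y z s := by
  unfold tau
  rw [← asum_neg]
  congr 1
  funext p q
  abel

theorem cc_swap {θ : Multiset V → V → V} (h : IsFrame R θ) (y z : V) (s : Multiset V) :
    cc θ z y s = - cc θ y z s := by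
  refine (solve_unique h (fun s => - tau θ z y s) (fun s => - cc θ y z s) ?_ s).symm
  intro s
  have h1 := conv_solve h (fun s => - tau θ y z s) s
  change conv θ (cc θ y z) s = _ at h1
  have h2 : conv θ (fun s => - cc θ y z s) s = - conv θ (cc θ y z) s := by
    unfold conv
    rw [← asum_neg]
    congr 1
    funext a b
    exact h.map_neg _ _
  rw [h2, h1, tau_swap θ y z]

theorem tau_mlin {θ : Multiset V → V → V} (h : IsFrame R θ) (y z : V) : MLin R (tau θ y z) := by
  apply MLin.asum
  · intro t
    apply MLin.sub
    · intro s a u v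
      simp only
      rw [cons_swap, cons_swap _ u, cons_swap _ v]
      exact h.mlin z (θ t y ::ₘ s) a u v
    · intro s a u v
      simp only
      rw [cons_swap, cons_swap _ u, cons_swap _ v]
      exact h.mlin y (θ t z ::ₘ s) a u v
  · intro p
    apply MLin.sub
    · intro s a u v
      simp only
      have e := h.mlin y s a u v
      simp only at e
      rw [e]
      exact h.mlin z p a _ _
    · intro s a u v
      simp only
      have e := h.mlin z s a u v
      simp only at e
      rw [e]
      exact h.mlin y p a _ _

theorem cc_mlin {θ : Multiset V → V → V} (h : IsFrame R θ) (y z : V) : MLin R (cc θ y z) :=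
  solve_mlin h _ (tau_mlin h y z).neg

theorem conv_lin {θ : Multiset V → V → V} (h : IsFrame R θ) (a : R) (c c' : Multiset V → V)
    (s : Multiset V) :
    conv θ (fun s => a • c s + c' s) s = a • conv θ c s + conv θ c' s := by
  unfold conv
  rw [← asum_smul, ← asum_add]
  congr 1
  funext p q
  exact h.lin _ _ _ _

theorem cc_lin_left {θ : Multiset V → V → V} (h : IsFrame R θ) (a : R) (y y' z : V)
    (s : Multiset V) : cc θ (a • y + y') z s = a • cc θ y z s + cc θ y' z s := by
  refine (solve_unique h (fun s => - tau θ (a • y + y') z s)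
    (fun s => a • cc θ y z s + cc θ y' z s) ?_ s).symm
  intro s
  have h1 := conv_solve h (fun s => - tau θ y z s) s
  have h2 := conv_solve h (fun s => - tau θ y' z s) s
  change conv θ (cc θ y z) s = _ at h1
  change conv θ (cc θ y' z) s = _ at h2
  rw [conv_lin h, h1, h2]
  unfold tau
  rw [← asum_neg, ← asum_neg, ← asum_neg, ← asum_smul, ← asum_add]
  congr 1
  funext p q
  have e1 := h.lin q a y y'
  have e2 := h.mlin z p a (θ q y) (θ q y')
  have e3 := h.lin (θ q z ::ₘ p) a y y'
  simp only at e2
  rw [e1, e2, e3, smul_neg, smul_sub]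
  abel

theorem cc_lin_right {θ : Multiset V → V → V} (h : IsFrame R θ) (a : R) (y z z' : V)
    (s : Multiset V) : cc θ y (a • z + z') s = a • cc θ y z s + cc θ y z' s := by
  rw [cc_swap h, cc_lin_left h, cc_swap h y z, cc_swap h y z', smul_neg, neg_add, neg_neg, neg_neg]

theorem sb_S1 {θ : Multiset V → V → V} (h : IsFrame R θ) (x : List V) (y z : V) :
    sb θ x y z + sb θ x z y = 0 := by
  unfold sb
  have : cc θ z y = fun s => - cc θ y z s := funext (cc_swap h y z)
  rw [this, Dl_fneg]
  exact add_neg_cancel _

theorem D_zero_left {θ : Multiset V → V → V} (h : IsFrame R θ) {f : Multiset V → M}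
    (hf : MLin R f) (s : Multiset V) : D θ 0 f s = 0 := by
  have := D_lin h (1 : R) 0 0 hf s
  simpa using this

theorem D_add_left {θ : Multiset V → V → V} (h : IsFrame R θ) {f : Multiset V → M}
    (hf : MLin R f) (u v : V) (s : Multiset V) : D θ (u + v) f s = D θ u f s + D θ v f s := by
  have := D_lin h (1 : R) u v hf s
  simpa using this

theorem sb_S2 {θ : Multiset V → V → V} (h : IsFrame R θ) (u : List V) (a b : V) (w : List V)
    (y z : V) :
    sb θ (u ++ a :: b :: w) y z - sb θ (u ++ b :: a :: w) y z +
      ((splits u).map (fun p => sb θ (p.1 ++ sb θ p.2 a b :: w) y z)).sum = 0 := by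
  unfold sb
  rw [Dl_append, Dl_append]
  simp only [Dl_cons]
  set g := Dl θ w (cc θ y z) with hg
  have hgm : MLin R g := Dl_mlin h w (cc_mlin h y z)
  have e1 : (fun s => D θ a (D θ b g) s - D θ b (D θ a g) s) =
      fun s => - star (cc θ a b) (fun v => D θ v g) s := by
    funext s
    exact D_comm h hgm a b s
  have e2 := congrFun (Dl_fsub (θ := θ) u (D θ a (D θ b g)) (D θ b (D θ a g))) 0
  rw [e1] at e2
  rw [← e2, Dl_fneg]
  simp only
  rw [Dl_star u (cc θ a b) (fun v => D θ v g) (fun s => D_zero_left h hgm s)
    (fun w w' s => D_add_left h hgm w w' s)]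
  rw [neg_add_eq_zero]
  congr 1
  apply List.map_congr_left
  intro p _
  rw [star_zero, Dl_append, Dl_cons]

/-- associativity of `star` -/
theorem star_star (c : Multiset V → V) (b : V → Multiset V → V) (G : V → Multiset V → M)
    (hG0 : ∀ b, G 0 b = 0) (hG : ∀ w w' b, G (w + w') b = G w b + G w' b) (s : Multiset V) :
    star c (fun w => star (b w) G) s = star (star c b) G s := by
  unfold star
  rw [asum_assoc s (fun a p q => G (b (c a) p) q)]
  congr 1
  funext a' q
  let φ : V →+ M := ⟨⟨fun w => G w q, hG0 q⟩, fun w w' => hG w w' q⟩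
  exact (asum_map_hom a' (fun u t => b (c u) t) φ).symm

/-- the identity function -/
def idf (s : Multiset V) : V := if card s = 1 then s.sum else 0

theorem idf_mlin : MLin R (idf (V := V)) := by
  intro s a u v
  unfold idf
  simp only [card_cons]
  by_cases h : card s = 0
  · have : s = 0 := card_eq_zero.1 h
    subst this
    simp
  · have : ¬ (card s + 1 = 1) := by omega
    rw [if_neg this, if_neg this, if_neg this]
    simp

theorem D_idf {θ : Multiset V → V → V} (v : V) (s : Multiset V) : D θ v idf s = θ s v := by
  unfold D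
  rw [asum_comm]
  have h := asum_split s (fun t u => idf (θ t v ::ₘ u)) (fun _ _ => (0 : V)) (by
    intro t u _ hu
    unfold idf
    have := card_pos.2 hu
    rw [if_neg]
    rw [card_cons]; omega)
  have h0 : asum s (fun _ _ => (0 : V)) = 0 := by simp [asum]
  rw [h0, sub_zero, sub_zero] at h
  rw [h]
  simp [idf]

/-- If the vector field with coefficient function `S` is zero then `S = 0`. -/
theorem eq_zero_of_star {θ : Multiset V → V → V} (h : IsFrame R θ) (S : Multiset V → V)
    (hS : ∀ s, star S (fun w => D θ w (idf (V := V))) s = 0) (s : Multiset V) : S s = 0 := by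
  apply conv_inj h S
  intro s
  rw [← hS s]
  unfold conv star
  rw [asum_comm]
  simp only [D_idf]

/-- The third identity at the level of functions. -/
theorem jac {θ : Multiset V → V → V} (h : IsFrame R θ) (x y z : V) (s : Multiset V) :
    (D θ z (cc θ x y) s + star (cc θ x y) (fun w => cc θ w z) s) +
    (D θ x (cc θ y z) s + star (cc θ y z) (fun w => cc θ w x) s) +
    (D θ y (cc θ z x) s + star (cc θ z x) (fun w => cc θ w y) s) = 0 := by
  apply eq_zero_of_star h (fun s =>
    (D θ z (cc θ x y) s + star (cc θ x y) (fun w => cc θ w z) s) +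
    (D θ x (cc θ y z) s + star (cc θ y z) (fun w => cc θ w x) s) +
    (D θ y (cc θ z x) s + star (cc θ z x) (fun w => cc θ w y) s))
  intro s
  set f : Multiset V → V := idf with hf
  have hfm : MLin R f := idf_mlin
  have hadd : ∀ w w' b, D θ (w + w') f b = D θ w f b + D θ w' f b := fun w w' b =>
    D_add_left h hfm w w' b
  have hzero : ∀ b, D θ 0 f b = 0 := fun b => D_zero_left h hfm b
  -- `(X_c D_z - D_z X_c) f = - X_(star c (cc · z)) f - X_(D_z c) f`
  have key : ∀ (c : Multiset V → V) (z : V),
      star c (fun w => D θ w (D θ z f)) s - D θ z (star c (fun w => D θ w f)) s =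
      - star (fun s => D θ z c s + star c (fun w => cc θ w z) s) (fun w => D θ w f) s := by
    intro c z
    rw [D_star z c (fun w => D θ w f) hzero hadd]
    have e1 : star c (fun w => D θ w (D θ z f)) s - star c (fun w => D θ z (D θ w f)) s =
        - star c (fun w => star (cc θ w z) (fun w => D θ w f)) s := by
      unfold star
      rw [← asum_sub, ← asum_neg]
      congr 1
      funext a b
      exact D_comm h hfm (c a) z b
    have e2 := star_star c (fun w => cc θ w z) (fun w => D θ w f) hzero hadd s
    have e3 : star (fun s => D θ z c s + star c (fun w => cc θ w z) s) (fun w => D θ w f) s =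
        star (D θ z c) (fun w => D θ w f) s +
        star (star c (fun w => cc θ w z)) (fun w => D θ w f) s := by
      conv_lhs => unfold star
      conv_rhs => rw [star]
      unfold star
      rw [← asum_add]
      congr 1
      funext a b
      exact hadd _ _ _
    rw [e3, ← e2, sub_add_eq_sub_sub, e1]
    abel
  -- Jacobi identity for operators
  have comm : ∀ y z : V, ∀ g : Multiset V → V, MLin R g →
      star (cc θ y z) (fun w => D θ w g) = fun s => D θ z (D θ y g) s - D θ y (D θ z g) s := by
    intro y z g hg
    funext s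
    have := D_comm h hg y z s
    rw [← neg_eq_iff_eq_neg] at this
    rw [← this]
    abel
  have hDm : ∀ z, MLin R (D θ z f) := fun z => D_mlin h z hfm
  have k1 := key (cc θ x y) z
  have k2 := key (cc θ y z) x
  have k3 := key (cc θ z x) y
  rw [comm x y _ (hDm z), comm x y f hfm, D_fsub] at k1
  rw [comm y z _ (hDm x), comm y z f hfm, D_fsub] at k2
  rw [comm z x _ (hDm y), comm z x f hfm, D_fsub] at k3
  have hsum : star (fun s =>
      (D θ z (cc θ x y) s + star (cc θ x y) (fun w => cc θ w z) s) +
      (D θ x (cc θ y z) s + star (cc θ y z) (fun w => cc θ w x) s) +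
      (D θ y (cc θ z x) s + star (cc θ z x) (fun w => cc θ w y) s)) (fun w => D θ w f) s =
      star (fun s => D θ z (cc θ x y) s + star (cc θ x y) (fun w => cc θ w z) s)
        (fun w => D θ w f) s +
      star (fun s => D θ x (cc θ y z) s + star (cc θ y z) (fun w => cc θ w x) s)
        (fun w => D θ w f) s +
      star (fun s => D θ y (cc θ z x) s + star (cc θ z x) (fun w => cc θ w y) s)
        (fun w => D θ w f) s := by
    conv_lhs => rw [star]
    conv_rhs => rw [star, star, star]
    rw [← asum_add, ← asum_add]
    congr 1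
    funext a b
    rw [hadd, hadd]
  rw [hsum]
  have k1' := congrArg Neg.neg k1
  have k2' := congrArg Neg.neg k2
  have k3' := congrArg Neg.neg k3
  rw [neg_neg] at k1' k2' k3'
  beta_reduce at k1' k2' k3'
  rw [← k1', ← k2', ← k3']
  abel

theorem sb_S3 {θ : Multiset V → V → V} (h : IsFrame R θ) (u : List V) (x y z : V) :
    (sb θ (u ++ [x]) y z + ((splits u).map (fun p => sb θ p.1 (sb θ p.2 y z) x)).sum) +
    (sb θ (u ++ [y]) z x + ((splits u).map (fun p => sb θ p.1 (sb θ p.2 z x) y)).sum) +
    (sb θ (u ++ [z]) x y + ((splits u).map (fun p => sb θ p.1 (sb θ p.2 x y) z)).sum) = 0 := by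
  have hc0 : ∀ z b, cc θ 0 z b = 0 := by
    intro z b
    have := cc_lin_left h (1 : R) 0 0 z b
    simpa using this
  have hc : ∀ z w w' b, cc θ (w + w') z b = cc θ w z b + cc θ w' z b := by
    intro z w w' b
    have := cc_lin_left h (1 : R) w w' z b
    simpa using this
  have e : ∀ x y z : V, Dl θ u (fun s => D θ z (cc θ x y) s +
      star (cc θ x y) (fun w => cc θ w z) s) 0 =
      sb θ (u ++ [z]) x y + ((splits u).map (fun p => sb θ p.1 (sb θ p.2 x y) z)).sum := by
    intro x y z
    rw [Dl_fadd]
    simp only
    congr 1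
    · unfold sb
      rw [Dl_append]
      rfl
    · rw [Dl_star u (cc θ x y) (fun w => cc θ w z) (hc0 z) (hc z)]
      congr 1
      apply List.map_congr_left
      intro p _
      rw [star_zero]
      rfl
  rw [← e y z x, ← e z x y, ← e x y z]
  have h1 : (fun s => (D θ z (cc θ x y) s + star (cc θ x y) (fun w => cc θ w z) s) +
    (D θ x (cc θ y z) s + star (cc θ y z) (fun w => cc θ w x) s) +
    (D θ y (cc θ z x) s + star (cc θ z x) (fun w => cc θ w y) s)) = fun _ => (0 : V) :=
    funext (jac h x y z)
  have h2 := congrFun (Dl_fzero (θ := θ) (M := V) u) 0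
  rw [← h1, Dl_fadd, Dl_fadd] at h2
  simp only at h2
  rw [← h2]
  abel

end Pool.Agent.Helper12.Sab
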