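import Pool.Agent.Helper12.Sab.Asum

set_option autoImplicit false

namespace Pool.Agent.Helper12.Sab

open Multiset

variable {R : Type*} [CommRing R] {V : Type*} [AddCommGroup V] [Module R V]
  {M : Type*} [AddCommGroup M] [Module R M]

/-- Multilinear functions of a multiset. -/
def MLin (R : Type*) [CommRing R] {V : Type*} [AddCommGroup V] [Module R V]
    {M : Type*} [AddCommGroup M] [Module R M] (f : Multiset V → M) : Prop :=
  ∀ (s : Multiset V) (a : R) (u v : V), f ((a • u + v) ::ₘ s) = a • f (u ::ₘ s) + f (v ::ₘ s)

/-- Taylor coefficients of a frame. -/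
structure IsFrame (R : Type*) [CommRing R] {V : Type*} [AddCommGroup V] [Module R V]
    (θ : Multiset V → V → V) : Prop where
  zero : ∀ v, θ 0 v = v
  lin : ∀ (s : Multiset V) (a : R) (u v : V), θ s (a • u + v) = a • θ s u + θ s v
  mlin : ∀ w, MLin R (fun s => θ s w)

namespace IsFrame

variable {θ : Multiset V → V → V} (h : IsFrame R θ)
include h

theorem map_add (s : Multiset V) (u v : V) : θ s (u + v) = θ s u + θ s v := by
  have := h.lin s 1 u v
  simpa using this

theorem map_zero (s : Multiset V) : θ s 0 = 0 := by
  have := h.map_add s 0 0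
  simpa using this

theorem map_smul (s : Multiset V) (a : R) (u : V) : θ s (a • u) = a • θ s u := by
  have := h.lin s a u 0
  simpa [h.map_zero] using this

theorem map_neg (s : Multiset V) (u : V) : θ s (-u) = - θ s u := by
  have := h.map_add s u (-u)
  rw [add_neg_cancel, h.map_zero] at this
  exact (neg_eq_of_add_eq_zero_right this.symm).symm

theorem map_sub (s : Multiset V) (u v : V) : θ s (u - v) = θ s u - θ s v := by
  rw [sub_eq_add_neg, h.map_add, h.map_neg, sub_eq_add_neg]

/-- `θ s` as an additive map. -/
def hom (s : Multiset V) : V →+ V where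
  toFun := θ s
  map_zero' := h.map_zero s
  map_add' := h.map_add s

theorem hom_apply (s : Multiset V) (v : V) : h.hom s v = θ s v := rfl

end IsFrame

theorem MLin.cons_add {f : Multiset V → M} (hf : MLin R f) (s : Multiset V) (u v : V) :
    f ((u + v) ::ₘ s) = f (u ::ₘ s) + f (v ::ₘ s) := by
  have := hf s 1 u v
  simpa using this

theorem MLin.cons_zero {f : Multiset V → M} (hf : MLin R f) (s : Multiset V) :
    f (0 ::ₘ s) = 0 := by
  have := hf.cons_add s 0 0
  simpa using this

theorem MLin.cons_smul {f : Multiset V → M} (hf : MLin R f) (s : Multiset V) (a : R) (u : V) :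
    f ((a • u) ::ₘ s) = a • f (u ::ₘ s) := by
  have := hf s a u 0
  simpa [hf.cons_zero] using this

theorem MLin.cons_neg {f : Multiset V → M} (hf : MLin R f) (s : Multiset V) (u : V) :
    f ((-u) ::ₘ s) = - f (u ::ₘ s) := by
  have := hf.cons_add s u (-u)
  rw [add_neg_cancel, hf.cons_zero] at this
  exact (neg_eq_of_add_eq_zero_right this.symm).symm

theorem MLin.cons_sub {f : Multiset V → M} (hf : MLin R f) (s : Multiset V) (u v : V) :
    f ((u - v) ::ₘ s) = f (u ::ₘ s) - f (v ::ₘ s) := by
  rw [sub_eq_add_neg, hf.cons_add, hf.cons_neg, sub_eq_add_neg]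

/-- first-slot evaluation as an additive map -/
def MLin.hom {f : Multiset V → M} (hf : MLin R f) (s : Multiset V) : V →+ M where
  toFun := fun u => f (u ::ₘ s)
  map_zero' := hf.cons_zero s
  map_add' := hf.cons_add s

theorem MLin.add {f g : Multiset V → M} (hf : MLin R f) (hg : MLin R g) :
    MLin R (fun s => f s + g s) := by
  intro s a u v
  simp only [hf s a u v, hg s a u v, smul_add]
  abel

theorem MLin.neg {f : Multiset V → M} (hf : MLin R f) : MLin R (fun s => - f s) := by
  intro s a u v
  simp only [hf s a u v, smul_neg]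
  abel

theorem MLin.sub {f g : Multiset V → M} (hf : MLin R f) (hg : MLin R g) :
    MLin R (fun s => f s - g s) := by
  intro s a u v
  simp only [hf s a u v, hg s a u v, smul_sub]
  abel

/-- multilinearity of a splitting sum -/
theorem MLin.asum {F : Multiset V → Multiset V → M}
    (h1 : ∀ t, MLin R (fun u => F u t)) (h2 : ∀ u, MLin R (fun t => F u t)) :
    MLin R (fun s => asum s F) := by
  intro s a u v
  simp only [asum_cons]
  have e1 : ∀ p q, F p ((a • u + v) ::ₘ q) = a • F p (u ::ₘ q) + F p (v ::ₘ q) :=
    fun p q => h2 p q a u v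
  have e2 : ∀ p q, F ((a • u + v) ::ₘ p) q = a • F (u ::ₘ p) q + F (v ::ₘ p) q :=
    fun p q => h1 q p a u v
  simp only [e1, e2, asum_add, asum_smul, smul_add]
  abel

/-- Derivative of `f` along the vector field with frame `θ` and constant coefficient `v`. -/
def D (θ : Multiset V → V → V) (v : V) (f : Multiset V → M) (s : Multiset V) : M :=
  asum s (fun u t => f (θ t v ::ₘ u))

theorem D_mlin {θ : Multiset V → V → V} (h : IsFrame R θ) (v : V) {f : Multiset V → M}
    (hf : MLin R f) : MLin R (D θ v f) := by
  apply MLin.asum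
  · intro t s a x y
    simp only
    rw [cons_swap, hf, cons_swap x, cons_swap y]
  · intro u t a x y
    simp only
    have := h.mlin v t a x y
    simp only at this
    rw [this, hf]

theorem D_lin {θ : Multiset V → V → V} (h : IsFrame R θ) (a : R) (u v : V) {f : Multiset V → M}
    (hf : MLin R f) (s : Multiset V) : D θ (a • u + v) f s = a • D θ u f s + D θ v f s := by
  unfold D
  rw [← asum_smul, ← asum_add]
  congr 1
  funext p q
  rw [h.lin, hf]

omit [AddCommGroup V] in
theorem D_fadd {θ : Multiset V → V → V} (v : V) (f g : Multiset V → M) (s : Multiset V) :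
    D θ v (fun t => f t + g t) s = D θ v f s + D θ v g s := by
  unfold D
  rw [← asum_add]

omit [AddCommGroup V] in
theorem D_fneg {θ : Multiset V → V → V} (v : V) (f : Multiset V → M) (s : Multiset V) :
    D θ v (fun t => - f t) s = - D θ v f s := by
  unfold D
  rw [← asum_neg]

omit [AddCommGroup V] in
theorem D_fsub {θ : Multiset V → V → V} (v : V) (f g : Multiset V → M) (s : Multiset V) :
    D θ v (fun t => f t - g t) s = D θ v f s - D θ v g s := by
  unfold D
  rw [← asum_sub]

omit [AddCommGroup V] in
theorem D_fzero {θ : Multiset V → V → V} (v : V) (s : Multiset V) :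
    D θ v (fun _ => (0 : M)) s = 0 := by
  have := D_fadd (θ := θ) v (fun _ => (0 : M)) (fun _ => 0) s
  simpa using this

/-- Convolution of the frame with a `V`-valued function. -/
def conv (θ : Multiset V → V → V) (c : Multiset V → V) (s : Multiset V) : V :=
  asum s (fun a b => θ a (c b))

theorem conv_add {θ : Multiset V → V → V} (h : IsFrame R θ) (c c' : Multiset V → V)
    (s : Multiset V) : conv θ (fun t => c t + c' t) s = conv θ c s + conv θ c' s := by
  unfold conv
  rw [← asum_add]
  congr 1
  funext a b
  exact h.map_add _ _ _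

/-- If `c` vanishes on smaller multisets then the convolution is `c s`. -/
theorem conv_eq_self {θ : Multiset V → V → V} (h : IsFrame R θ) (c : Multiset V → V)
    (s : Multiset V) (hc : ∀ t, card t < card s → c t = 0) : conv θ c s = c s := by
  have h1 := asum_split s (fun b a => θ a (c b)) (fun _ _ => (0 : V)) (by
    intro b a hab ha
    rw [hc b, h.map_zero]
    rw [← hab, card_add]
    have := card_pos.2 ha
    omega)
  have h0 : asum s (fun _ _ => (0 : V)) = 0 := by simp [asum]
  rw [h0, sub_zero, sub_zero, h.zero] at h1
  rw [← h1, conv, asum_comm]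

theorem conv_inj {θ : Multiset V → V → V} (h : IsFrame R θ) (c : Multiset V → V)
    (hc : ∀ s, conv θ c s = 0) (s : Multiset V) : c s = 0 := by
  induction hn : card s using Nat.strong_induction_on generalizing s with
  | _ n ih =>
  subst hn
  rw [← conv_eq_self h c s (fun t ht => ih _ ht t rfl)]
  exact hc s

/-- Successive approximations to the solution of `θ * c = g`. -/
def iter (θ : Multiset V → V → V) (g : Multiset V → V) : ℕ → Multiset V → V
  | 0 => g
  | n + 1 => fun s => iter θ g n s + (g s - conv θ (iter θ g n) s)

/-- The solution of `θ * c = g`. -/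
def solve (θ : Multiset V → V → V) (g : Multiset V → V) (s : Multiset V) : V :=
  iter θ g (card s) s

theorem conv_iter {θ : Multiset V → V → V} (h : IsFrame R θ) (g : Multiset V → V) (n : ℕ)
    (s : Multiset V) (hs : card s ≤ n) : conv θ (iter θ g n) s = g s := by
  induction n generalizing s with
  | zero =>
    have : s = 0 := card_eq_zero.1 (Nat.le_zero.1 hs)
    subst this
    simp [conv, asum_zero, iter, h.zero]
  | succ n ih =>
    have e : iter θ g (n + 1) = fun t => iter θ g n t + (g t - conv θ (iter θ g n) t) := rfl
    rw [e, conv_add h]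
    rw [conv_eq_self h (fun t => g t - conv θ (iter θ g n) t) s]
    · abel
    · intro t ht
      rw [ih t (by omega), sub_self]

theorem iter_stable {θ : Multiset V → V → V} (h : IsFrame R θ) (g : Multiset V → V) (n : ℕ)
    (s : Multiset V) (hs : card s ≤ n) : iter θ g n s = solve θ g s := by
  induction n with
  | zero =>
    have : card s = 0 := Nat.le_zero.1 hs
    simp [solve, this]
  | succ n ih =>
    rcases Nat.lt_or_ge n (card s) with h1 | h1
    · have : card s = n + 1 := by omega
      simp [solve, this]
    · have e : iter θ g (n + 1) s = iter θ g n s + (g s - conv θ (iter θ g n) s) := rfl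
      rw [e, conv_iter h g n s h1, sub_self, add_zero, ih h1]

theorem conv_solve {θ : Multiset V → V → V} (h : IsFrame R θ) (g : Multiset V → V)
    (s : Multiset V) : conv θ (solve θ g) s = g s := by
  rw [← conv_iter h g (card s) s le_rfl]
  apply asum_congr
  intro a b hab
  rw [iter_stable h g (card s) b]
  rw [← hab, card_add]
  omega

theorem solve_unique {θ : Multiset V → V → V} (h : IsFrame R θ) (g c : Multiset V → V)
    (hc : ∀ s, conv θ c s = g s) (s : Multiset V) : c s = solve θ g s := by
  have h1 : ∀ s, conv θ (fun t => c t - solve θ g t) s = 0 := by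
    intro s
    have h2 : conv θ (fun t => c t - solve θ g t) s = conv θ c s - conv θ (solve θ g) s := by
      unfold conv
      rw [← asum_sub]
      congr 1
      funext a b
      exact h.map_sub _ _ _
    rw [h2, hc, conv_solve h, sub_self]
  exact sub_eq_zero.1 (conv_inj h _ h1 s)

theorem solve_mlin {θ : Multiset V → V → V} (h : IsFrame R θ) (g : Multiset V → V)
    (hg : MLin R g) : MLin R (solve θ g) := by
  intro s a u v
  have key : ∀ s, conv θ (fun s => solve θ g ((a • u + v) ::ₘ s) - a • solve θ g (u ::ₘ s) -
      solve θ g (v ::ₘ s)) s = 0 := by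
    intro s
    have e1 := conv_solve h g ((a • u + v) ::ₘ s)
    have e2 := conv_solve h g (u ::ₘ s)
    have e3 := conv_solve h g (v ::ₘ s)
    unfold conv at e1 e2 e3 ⊢
    rw [asum_cons] at e1 e2 e3
    have e4 : asum s (fun x t => θ ((a • u + v) ::ₘ x) (solve θ g t)) =
        a • asum s (fun x t => θ (u ::ₘ x) (solve θ g t)) +
          asum s (fun x t => θ (v ::ₘ x) (solve θ g t)) := by
      rw [← asum_smul, ← asum_add]
      congr 1
      funext x t
      exact h.mlin _ x a u v
    have e5 : asum s (fun p q => θ p (solve θ g ((a • u + v) ::ₘ q) - a • solve θ g (u ::ₘ q) -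
        solve θ g (v ::ₘ q))) = asum s (fun p q => θ p (solve θ g ((a • u + v) ::ₘ q))) -
        a • asum s (fun p q => θ p (solve θ g (u ::ₘ q))) -
        asum s (fun p q => θ p (solve θ g (v ::ₘ q))) := by
      rw [← asum_smul, ← asum_sub, ← asum_sub]
      congr 1
      funext p q
      rw [h.map_sub, h.map_sub, h.map_smul]
    have e6 := hg s a u v
    rw [e5]
    rw [e4] at e1
    have e7 : asum s (fun u_1 t => θ u_1 (solve θ g ((a • u + v) ::ₘ t))) =
      g ((a • u + v) ::ₘ s) - (a • asum s (fun x t => θ (u ::ₘ x) (solve θ g t)) +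
          asum s (fun x t => θ (v ::ₘ x) (solve θ g t))) := by
      rw [← e1]; abel
    have e8 : asum s (fun u_1 t => θ u_1 (solve θ g (u ::ₘ t))) =
      g (u ::ₘ s) - asum s (fun x t => θ (u ::ₘ x) (solve θ g t)) := by
      rw [← e2]; abel
    have e9 : asum s (fun u_1 t => θ u_1 (solve θ g (v ::ₘ t))) =
      g (v ::ₘ s) - asum s (fun x t => θ (v ::ₘ x) (solve θ g t)) := by
      rw [← e3]; abel
    rw [e7, e8, e9, e6, smul_sub]
    abel
  have := conv_inj h _ key s
  rw [sub_sub, sub_eq_zero] at this
  exact this

end Pool.Agent.Helper12.Sab
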