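import Pool.Agent.Helper12.Sab.Defs

/-!
# Existence of free degree `d` Sabinin algebras (sanity check for the definitions)
-/

set_option autoImplicit false

namespace Pool.Agent.Helper12.Sab

universe u

/-- terms -/
inductive Tm (F X : Type u) : Type u
  | var : X → Tm F X
  | zero : Tm F X
  | add : Tm F X → Tm F X → Tm F X
  | smul : F → Tm F X → Tm F X
  | br : (n : ℕ) → (Fin n → Tm F X) → Tm F X → Tm F X → Tm F X
  | phi : (m n : ℕ) → (Fin m → Tm F X) → (Fin n → Tm F X) → Tm F X

variable {F : Type u} [Field F] {d : ℕ} {X : Type u} {W : Type u} [AddCommGroup W] [Module F W]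

/-- evaluation of terms -/
def Tm.eval (S : SabAlg F d W) (g : X → W) : Tm F X → W
  | .var x => g x
  | .zero => 0
  | .add a b => Tm.eval S g a + Tm.eval S g b
  | .smul c a => c • Tm.eval S g a
  | .br _ x y z => S.br (List.ofFn (fun i => Tm.eval S g (x i))) (Tm.eval S g y) (Tm.eval S g z)
  | .phi _ _ x y =>
    S.Phi (List.ofFn (fun i => Tm.eval S g (x i))) (List.ofFn (fun i => Tm.eval S g (y i)))

variable (F d X) in
/-- equality in all algebras -/
@[reducible] def tmSetoid : Setoid (Tm F X) where
  r t t' := ∀ (W : Type u) [AddCommGroup W] [Module F W] (S : SabAlg F d W) (g : X → W),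
    t.eval S g = t'.eval S g
  iseqv := ⟨fun _ _ _ _ _ _ => rfl, fun h W _ _ S g => (h W S g).symm,
    fun h h' W _ _ S g => (h W S g).trans (h' W S g)⟩

variable (F d X) in
/-- the free algebra -/
def Fr : Type u := Quotient (tmSetoid F d X)

namespace Fr

/-- class of a term -/
def mk (t : Tm F X) : Fr F d X := Quotient.mk (tmSetoid F d X) t

/-- evaluation -/
def ev (S : SabAlg F d W) (g : X → W) (a : Fr F d X) : W :=
  Quotient.lift (s := tmSetoid F d X) (fun t : Tm F X => t.eval S g)
    (fun _ _ (h : (tmSetoid F d X).r _ _) => h W S g) a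

theorem ev_mk (S : SabAlg F d W) (g : X → W) (t : Tm F X) : ev S g (mk t) = t.eval S g := rfl

theorem ext' {a b : Fr F d X} (h : ∀ (W : Type u) [AddCommGroup W] [Module F W]
    (S : SabAlg F d W) (g : X → W), ev S g a = ev S g b) : a = b := by
  induction a using Quotient.inductionOn
  induction b using Quotient.inductionOn
  exact Quotient.sound h

theorem mk_surj (a : Fr F d X) : ∃ t, mk t = a := Quotient.exists_rep a

/-- representative -/
noncomputable def rep (a : Fr F d X) : Tm F X := (mk_surj a).choose

theorem mk_rep (a : Fr F d X) : mk (rep a) = a := (mk_surj a).choose_spec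

theorem eval_rep (S : SabAlg F d W) (g : X → W) (a : Fr F d X) : (rep a).eval S g = ev S g a := by
  conv_rhs => rw [← mk_rep a, ev_mk]

noncomputable instance : Zero (Fr F d X) := ⟨mk .zero⟩
noncomputable instance : Add (Fr F d X) := ⟨fun a b => mk (.add (rep a) (rep b))⟩
noncomputable instance : SMul F (Fr F d X) := ⟨fun c a => mk (.smul c (rep a))⟩
noncomputable instance : Neg (Fr F d X) := ⟨fun a => mk (.smul (-1) (rep a))⟩

theorem ev_zero (S : SabAlg F d W) (g : X → W) : ev S g 0 = 0 := rfl
theorem ev_add (S : SabAlg F d W) (g : X → W) (a b : Fr F d X) :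
    ev S g (a + b) = ev S g a + ev S g b := by
  change (rep a).eval S g + (rep b).eval S g = _
  rw [eval_rep, eval_rep]
theorem ev_smul (S : SabAlg F d W) (g : X → W) (c : F) (a : Fr F d X) :
    ev S g (c • a) = c • ev S g a := by
  change c • (rep a).eval S g = _
  rw [eval_rep]
theorem ev_neg (S : SabAlg F d W) (g : X → W) (a : Fr F d X) :
    ev S g (-a) = - ev S g a := by
  change (-1 : F) • (rep a).eval S g = _
  rw [eval_rep, neg_one_smul]

noncomputable instance : AddCommGroup (Fr F d X) where
  add_assoc a b c := ext' (fun W _ _ S g => by simp only [ev_add, add_assoc])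
  zero_add a := ext' (fun W _ _ S g => by simp only [ev_add, ev_zero, zero_add])
  add_zero a := ext' (fun W _ _ S g => by simp only [ev_add, ev_zero, add_zero])
  neg_add_cancel a := ext' (fun W _ _ S g => by simp only [ev_add, ev_neg, ev_zero, neg_add_cancel])
  add_comm a b := ext' (fun W _ _ S g => by simp only [ev_add, add_comm])
  nsmul := nsmulRec
  zsmul := zsmulRec

noncomputable instance : Module F (Fr F d X) where
  one_smul a := ext' (fun W _ _ S g => by simp only [ev_smul, one_smul])
  mul_smul c c' a := ext' (fun W _ _ S g => by simp only [ev_smul, mul_smul])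
  smul_zero c := ext' (fun W _ _ S g => by simp only [ev_smul, ev_zero, smul_zero])
  smul_add c a b := ext' (fun W _ _ S g => by simp only [ev_smul, ev_add, smul_add])
  add_smul c c' a := ext' (fun W _ _ S g => by simp only [ev_smul, ev_add, add_smul])
  zero_smul a := ext' (fun W _ _ S g => by simp only [ev_smul, ev_zero, zero_smul])

/-- evaluation as a linear map -/
noncomputable def evL (S : SabAlg F d W) (g : X → W) : Fr F d X →ₗ[F] W where
  toFun := ev S g
  map_add' := ev_add S g
  map_smul' := ev_smul S g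

theorem ev_sub (S : SabAlg F d W) (g : X → W) (a b : Fr F d X) :
    ev S g (a - b) = ev S g a - ev S g b := map_sub (evL S g) a b

theorem ev_sum (S : SabAlg F d W) (g : X → W) (l : List (Fr F d X)) :
    ev S g l.sum = (l.map (ev S g)).sum := by
  induction l with
  | nil => rfl
  | cons a l ih => rw [List.sum_cons, ev_add, ih, List.map_cons, List.sum_cons]

/-- bracket -/
noncomputable def br (x : List (Fr F d X)) (y z : Fr F d X) : Fr F d X :=
  mk (.br x.length (fun i => rep (x.get i)) (rep y) (rep z))

/-- second operation -/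
noncomputable def Phi (x y : List (Fr F d X)) : Fr F d X :=
  mk (.phi x.length y.length (fun i => rep (x.get i)) (fun i => rep (y.get i)))

theorem ofFn_get {α β : Type*} (f : α → β) (l : List α) :
    List.ofFn (fun i => f (l.get i)) = l.map f := by
  have h : List.ofFn (fun i => f (l.get i)) = List.ofFn (f ∘ l.get) := rfl
  rw [h, ← List.map_ofFn, List.ofFn_get]

theorem ev_br (S : SabAlg F d W) (g : X → W) (x : List (Fr F d X)) (y z : Fr F d X) :
    ev S g (br x y z) = S.br (x.map (ev S g)) (ev S g y) (ev S g z) := by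
  unfold br
  rw [ev_mk]
  simp only [Tm.eval, eval_rep]
  rw [ofFn_get]

theorem ev_Phi (S : SabAlg F d W) (g : X → W) (x y : List (Fr F d X)) :
    ev S g (Phi x y) = S.Phi (x.map (ev S g)) (y.map (ev S g)) := by
  unfold Phi
  rw [ev_mk]
  simp only [Tm.eval, eval_rep]
  rw [ofFn_get, ofFn_get]

variable (F d X) in
/-- the free algebra -/
noncomputable def sab : SabAlg F d (Fr F d X) where
  br := br
  Phi := Phi
  br_out x y z h := ext' (fun W _ _ S g => by
    rw [ev_br, ev_zero, S.br_out _ _ _ (by simpa using h)])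
  Phi_out x y h := ext' (fun W _ _ S g => by
    rw [ev_Phi, ev_zero, S.Phi_out _ _ (by simpa using h)])
  br_lin_x l r a u v y z := ext' (fun W _ _ S g => by
    simp only [ev_br, ev_add, ev_smul, List.map_append, List.map_cons, S.br_lin_x])
  br_lin_y x a u v z := ext' (fun W _ _ S g => by
    simp only [ev_br, ev_add, ev_smul, S.br_lin_y])
  br_lin_z x a y u v := ext' (fun W _ _ S g => by
    simp only [ev_br, ev_add, ev_smul, S.br_lin_z])
  Phi_lin_x l r y a u v := ext' (fun W _ _ S g => by
    simp only [ev_Phi, ev_add, ev_smul, List.map_append, List.map_cons, S.Phi_lin_x])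
  Phi_lin_y x l r a u v := ext' (fun W _ _ S g => by
    simp only [ev_Phi, ev_add, ev_smul, List.map_append, List.map_cons, S.Phi_lin_y])
  S1 x y z h := ext' (fun W _ _ S g => by
    simp only [ev_br, ev_add, ev_zero]
    exact S.S1 _ _ _ (by simpa using h))
  S2 u a b w y z h := ext' (fun W _ _ S g => by
    have := S.S2 (u.map (ev S g)) (ev S g a) (ev S g b) (w.map (ev S g)) (ev S g y) (ev S g z)
      (by simpa using h)
    rw [splits_map, List.map_map] at this
    simp only [ev_br, ev_add, ev_sub, ev_sum, ev_zero, List.map_map, List.map_append,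
      List.map_cons, Function.comp_def] at this ⊢
    exact this)
  S3 u x y z h := ext' (fun W _ _ S g => by
    have := S.S3 (u.map (ev S g)) (ev S g x) (ev S g y) (ev S g z) (by simpa using h)
    simp only [splits_map, List.map_map] at this
    simp only [ev_br, ev_add, ev_sum, ev_zero, List.map_map, List.map_append,
      List.map_cons, List.map_nil, Function.comp_def] at this ⊢
    exact this)
  S4x x x' y h := ext' (fun W _ _ S g => by
    rw [ev_Phi, ev_Phi, S.S4x _ _ _ (h.map _)])
  S4y x y y' h := ext' (fun W _ _ S g => by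
    rw [ev_Phi, ev_Phi, S.S4y _ _ _ (h.map _)])

theorem ev_isHom (S : SabAlg F d W) (g : X → W) : IsHom (sab F d X) S (evL S g) :=
  ⟨fun x y z => ev_br S g x y z, fun x y => ev_Phi S g x y⟩

theorem hom_eq (S : SabAlg F d W) (g : X → W) (f : Fr F d X →ₗ[F] W) (hf : IsHom (sab F d X) S f)
    (hfX : ∀ x, f (mk (.var x)) = g x) (t : Tm F X) : f (mk t) = t.eval S g := by
  induction t with
  | var x => exact hfX x
  | zero =>
    have : (mk .zero : Fr F d X) = 0 := rfl
    rw [this, map_zero]
    rfl
  | add a b ha hb =>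
    have : (mk (.add a b) : Fr F d X) = mk a + mk b := ext' (fun W _ _ S g => by
      rw [ev_add, ev_mk, ev_mk, ev_mk]; rfl)
    rw [this, map_add, ha, hb]
    rfl
  | smul c a ha =>
    have : (mk (.smul c a) : Fr F d X) = c • mk a := ext' (fun W _ _ S g => by
      rw [ev_smul, ev_mk, ev_mk]; rfl)
    rw [this, map_smul, ha]
    rfl
  | br n x y z hx hy hz =>
    have : (mk (.br n x y z) : Fr F d X) =
        (sab F d X).br (List.ofFn (fun i => mk (x i))) (mk y) (mk z) := ext' (fun W _ _ S g => by
      change _ = ev S g (br _ _ _)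
      rw [ev_br, ev_mk, ev_mk, ev_mk, List.map_ofFn]; rfl)
    rw [this, hf.1, hy, hz, List.map_ofFn]
    simp only [Function.comp_def, hx]
    rfl
  | phi m n x y hx hy =>
    have : (mk (.phi m n x y) : Fr F d X) =
        (sab F d X).Phi (List.ofFn (fun i => mk (x i))) (List.ofFn (fun i => mk (y i))) :=
      ext' (fun W _ _ S g => by
        change _ = ev S g (Phi _ _)
        rw [ev_Phi, ev_mk, List.map_ofFn, List.map_ofFn]; rfl)
    rw [this, hf.2, List.map_ofFn, List.map_ofFn]
    simp only [Function.comp_def, hx, hy]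
    rfl

/-- the algebra with zero operations -/
def triv (F : Type u) [Field F] (d : ℕ) (W : Type u) [AddCommGroup W] [Module F W] :
    SabAlg F d W where
  br _ _ _ := 0
  Phi _ _ := 0
  br_out _ _ _ _ := rfl
  Phi_out _ _ _ := rfl
  br_lin_x _ _ _ _ _ _ _ := by simp
  br_lin_y _ _ _ _ _ := by simp
  br_lin_z _ _ _ _ _ := by simp
  Phi_lin_x _ _ _ _ _ _ := by simp
  Phi_lin_y _ _ _ _ _ _ := by simp
  S1 _ _ _ _ := by simp
  S2 _ _ _ _ _ _ _ := by simp
  S3 _ _ _ _ _ := by simp
  S4x _ _ _ _ := rfl
  S4y _ _ _ _ := rfl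

theorem var_inj : Function.Injective (fun x : X => (mk (.var x) : Fr F d X)) := by
  intro x y hxy
  have h := congrArg (ev (triv F d (X →₀ F)) (fun x => Finsupp.single x 1)) hxy
  have h2 : (Finsupp.single x (1 : F) : X →₀ F) = Finsupp.single y 1 := h
  exact Finsupp.single_left_injective one_ne_zero h2

/-- For every set `X` there is a free degree `d` Sabinin algebra on (a copy of) `X`. -/
theorem exists_free (F : Type u) [Field F] (d : ℕ) (X : Type u) :
    ∃ i : X → Fr F d X, Function.Injective i ∧ IsFreeOn (sab F d X) (Set.range i) := by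
  refine ⟨fun x => mk (.var x), var_inj, ?_⟩
  intro W _ _ S g
  refine ⟨evL S (fun x => g ⟨_, ⟨x, rfl⟩⟩), ⟨ev_isHom S _, ?_⟩, ?_⟩
  · rintro ⟨_, x, rfl⟩
    rfl
  · rintro f ⟨hf, hfX⟩
    ext a
    obtain ⟨t, rfl⟩ := mk_surj a
    exact hom_eq S _ f hf (fun x => hfX ⟨_, ⟨x, rfl⟩⟩) t

end Fr

end Pool.Agent.Helper12.Sab
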