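import Pool.Agent.Helper12.Sab.Norm

set_option autoImplicit false

namespace Pool.Agent.Helper12.Sab

open Multiset (card)

universe u

/-- Symbols for the generators of the functor. -/
abbrev Sy (V : Type u) : Type u := (Multiset V × V) ⊕ (Multiset V × Multiset V)

section defs

variable (F : Type u) [Field F] (d : ℕ)

/-- Families of multilinear operations with values in `M`. -/
structure IsOp {V : Type u} [AddCommGroup V] [Module F V] {M : Type u} [AddCommGroup M]
    [Module F M] (φ : Sy V → M) : Prop where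
  p1 : ∀ (s : Multiset V) (a : F) (u v : V),
    φ (Sum.inl (s, a • u + v)) = a • φ (Sum.inl (s, u)) + φ (Sum.inl (s, v))
  p2 : ∀ (w : V), MLin F (fun s => φ (Sum.inl (s, w)))
  p3 : ∀ s : Multiset V, 2 ≤ card s → psum s (fun x t => φ (Sum.inl (t, x))) = 0
  p4 : ∀ (s : Multiset V) (z : V), (s = 0 ∨ d ≤ card s) → φ (Sum.inl (s, z)) = 0
  p5 : ∀ (t : Multiset V), MLin F (fun s => φ (Sum.inr (s, t)))
  p6 : ∀ (s : Multiset V), MLin F (fun t => φ (Sum.inr (s, t)))
  p7 : ∀ (s t : Multiset V), ¬ (1 ≤ card s ∧ 2 ≤ card t ∧ card s + card t ≤ d) →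
    φ (Sum.inr (s, t)) = 0

variable (V : Type u) [AddCommGroup V] [Module F V]

/-- The relations. -/
def relSub : Submodule F (Sy V →₀ F) where
  carrier := {x | ∀ (M : Type u) [AddCommGroup M] [Module F M] (φ : Sy V → M), IsOp F d φ →
    Finsupp.linearCombination F φ x = 0}
  zero_mem' := by
    intro M _ _ φ _
    exact map_zero _
  add_mem' := by
    intro a b ha hb M _ _ φ hφ
    rw [map_add, ha M φ hφ, hb M φ hφ, add_zero]
  smul_mem' := by
    intro c a ha M _ _ φ hφ
    rw [map_smul, ha M φ hφ, smul_zero]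

/-- The functor on objects. -/
abbrev GG : Type u := (Sy V →₀ F) ⧸ relSub F d V

end defs

section

variable {F : Type u} [Field F] {d : ℕ} {V : Type u} [AddCommGroup V] [Module F V]
  {W : Type u} [AddCommGroup W] [Module F W] {M : Type u} [AddCommGroup M] [Module F M]

variable (F d) in
/-- generators -/
noncomputable def gi (x : Sy V) : GG F d V := (relSub F d V).mkQ (Finsupp.single x 1)

theorem mem_relSub {x : Sy V →₀ F} : x ∈ relSub F d V ↔
    ∀ (M : Type u) [AddCommGroup M] [Module F M] (φ : Sy V → M), IsOp F d φ →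
      Finsupp.linearCombination F φ x = 0 := Iff.rfl

theorem mkQ_eq_of {x y : Sy V →₀ F} (h : ∀ (M : Type u) [AddCommGroup M] [Module F M]
    (φ : Sy V → M), IsOp F d φ →
      Finsupp.linearCombination F φ x = Finsupp.linearCombination F φ y) :
    (relSub F d V).mkQ x = (relSub F d V).mkQ y := by
  rw [Submodule.mkQ_apply, Submodule.mkQ_apply, Submodule.Quotient.eq, mem_relSub]
  intro M _ _ φ hφ
  rw [map_sub, h M φ hφ, sub_self]

theorem gi_isOp : IsOp F d (gi F d : Sy V → GG F d V) where
  p1 s a u v := by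
    unfold gi
    rw [← map_smul, ← map_add]
    apply mkQ_eq_of
    intro M _ _ φ hφ
    simp only [map_add, map_smul, Finsupp.linearCombination_single, one_smul]
    exact hφ.p1 s a u v
  p2 w s a u v := by
    unfold gi
    simp only
    rw [← map_smul, ← map_add]
    apply mkQ_eq_of
    intro M _ _ φ hφ
    simp only [map_add, map_smul, Finsupp.linearCombination_single, one_smul]
    exact hφ.p2 w s a u v
  p3 s hs := by
    unfold gi
    have h1 := psum_hom s (fun x t => (Finsupp.single (Sum.inl (t, x)) 1 : Sy V →₀ F))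
      (relSub F d V).mkQ.toAddMonoidHom
    have h2 : (relSub F d V).mkQ (psum s (fun x t =>
        (Finsupp.single (Sum.inl (t, x)) 1 : Sy V →₀ F))) = (relSub F d V).mkQ 0 := by
      apply mkQ_eq_of
      intro M _ _ φ hφ
      have h3 := psum_hom s (fun x t => (Finsupp.single (Sum.inl (t, x)) 1 : Sy V →₀ F))
        (Finsupp.linearCombination F φ).toAddMonoidHom
      rw [map_zero]
      refine h3.trans ?_
      simp only [LinearMap.toAddMonoidHom_coe, Finsupp.linearCombination_single, one_smul]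
      exact hφ.p3 s hs
    rw [map_zero] at h2
    rw [← h2]
    exact h1.symm
  p4 s z h := by
    unfold gi
    rw [← map_zero (relSub F d V).mkQ]
    apply mkQ_eq_of
    intro M _ _ φ hφ
    simp only [map_zero, Finsupp.linearCombination_single, one_smul]
    exact hφ.p4 s z h
  p5 t s a u v := by
    unfold gi
    simp only
    rw [← map_smul, ← map_add]
    apply mkQ_eq_of
    intro M _ _ φ hφ
    simp only [map_add, map_smul, Finsupp.linearCombination_single, one_smul]
    exact hφ.p5 t s a u v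
  p6 t s a u v := by
    unfold gi
    simp only
    rw [← map_smul, ← map_add]
    apply mkQ_eq_of
    intro M _ _ φ hφ
    simp only [map_add, map_smul, Finsupp.linearCombination_single, one_smul]
    exact hφ.p6 t s a u v
  p7 s t h := by
    unfold gi
    rw [← map_zero (relSub F d V).mkQ]
    apply mkQ_eq_of
    intro M _ _ φ hφ
    simp only [map_zero, Finsupp.linearCombination_single, one_smul]
    exact hφ.p7 s t h

/-- The linear map out of `GG` given by a family of operations. -/
noncomputable def glift (φ : Sy V → M) (hφ : IsOp F d φ) : GG F d V →ₗ[F] M :=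
  (relSub F d V).liftQ (Finsupp.linearCombination F φ) (fun _ hx => mem_relSub.1 hx M φ hφ)

theorem glift_gi (φ : Sy V → M) (hφ : IsOp F d φ) (x : Sy V) :
    glift φ hφ (gi F d x) = φ x := by
  have h := Finsupp.linearCombination_single F (1 : F) x (v := φ)
  rw [one_smul] at h
  exact h

theorem gg_ext {f g : GG F d V →ₗ[F] M} (h : ∀ x, f (gi F d x) = g (gi F d x)) : f = g := by
  apply Submodule.linearMap_qext
  apply Finsupp.lhom_ext'
  intro x
  apply LinearMap.ext_ring
  exact h x

theorem gg_induction {p : GG F d V → Prop} (x : GG F d V) (h0 : p 0)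
    (hadd : ∀ a b, p a → p b → p (a + b)) (hsm : ∀ (c : F) x, p (c • gi F d x)) : p x := by
  obtain ⟨y, rfl⟩ := (relSub F d V).mkQ_surjective x
  induction y using Finsupp.induction_linear with
  | zero => rw [map_zero]; exact h0
  | add f g hf hg => rw [map_add]; exact hadd _ _ hf hg
  | single a b =>
    have : (Finsupp.single a b : Sy V →₀ F) = b • Finsupp.single a 1 := by
      rw [Finsupp.smul_single, smul_eq_mul, mul_one]
    rw [this, map_smul]
    exact hsm b a

/-- action of a linear map on symbols -/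
def symap (f : V → W) : Sy V → Sy W
  | Sum.inl p => Sum.inl (p.1.map f, f p.2)
  | Sum.inr p => Sum.inr (p.1.map f, p.2.map f)

theorem IsOp.comp {φ : Sy W → M} (hφ : IsOp F d φ) (f : V →ₗ[F] W) :
    IsOp F d (fun x => φ (symap f x)) where
  p1 s a u v := by
    simp only [symap, map_add, map_smul]
    exact hφ.p1 _ _ _ _
  p2 w s a u v := by
    simp only [symap, Multiset.map_cons, map_add, map_smul]
    exact hφ.p2 _ _ _ _ _
  p3 s hs := by
    simp only [symap]
    rw [← psum_map f s (fun x t => φ (Sum.inl (t, x)))]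
    exact hφ.p3 _ (by rwa [Multiset.card_map])
  p4 s z h := by
    simp only [symap]
    apply hφ.p4
    rcases h with h | h
    · left; rw [h, Multiset.map_zero]
    · right; rwa [Multiset.card_map]
  p5 t s a u v := by
    simp only [symap, Multiset.map_cons, map_add, map_smul]
    exact hφ.p5 _ _ _ _ _
  p6 t s a u v := by
    simp only [symap, Multiset.map_cons, map_add, map_smul]
    exact hφ.p6 _ _ _ _ _
  p7 s t h := by
    simp only [symap]
    apply hφ.p7
    rwa [Multiset.card_map, Multiset.card_map]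

variable (d) in
/-- The functor on maps. -/
noncomputable def gmap (f : V →ₗ[F] W) : GG F d V →ₗ[F] GG F d W :=
  glift (fun x => gi F d (symap f x)) (gi_isOp.comp f)

theorem gmap_gi (f : V →ₗ[F] W) (x : Sy V) : gmap d f (gi F d x) = gi F d (symap f x) :=
  glift_gi _ _ _

theorem gmap_id : gmap d (LinearMap.id : V →ₗ[F] V) = LinearMap.id := by
  apply gg_ext
  intro x
  rw [gmap_gi]
  rcases x with ⟨s, z⟩ | ⟨s, t⟩ <;> simp [symap]

variable {X : Type u} [AddCommGroup X] [Module F X]

theorem gmap_comp (g : W →ₗ[F] X) (f : V →ₗ[F] W) (x : GG F d V) :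
    gmap d g (gmap d f x) = gmap d (g ∘ₗ f) x := by
  have : gmap d g ∘ₗ gmap d f = gmap d (g ∘ₗ f) := by
    apply gg_ext
    intro x
    rw [LinearMap.comp_apply, gmap_gi, gmap_gi, gmap_gi]
    rcases x with ⟨s, z⟩ | ⟨s, t⟩ <;> simp [symap, Multiset.map_map]
  rw [← this]
  rfl

variable (d) in
/-- The subspace of `GG V` coming from a subspace `U` of `V`. -/
noncomputable def gsub (U : Submodule F V) : Submodule F (GG F d V) :=
  LinearMap.range (gmap d U.subtype)

theorem gsub_map {U : Submodule F V} {U' : Submodule F W} (f : V →ₗ[F] W)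
    (h : ∀ v ∈ U, f v ∈ U') {g : GG F d V} (hg : g ∈ gsub d U) : gmap d f g ∈ gsub d U' := by
  obtain ⟨g', rfl⟩ := hg
  refine ⟨gmap d ((f ∘ₗ U.subtype).codRestrict U' (fun v => h v v.2)) g', ?_⟩
  rw [gmap_comp, gmap_comp]
  rfl

theorem gsub_agree {U : Submodule F V} (f f' : V →ₗ[F] W) (h : ∀ v ∈ U, f v = f' v)
    {g : GG F d V} (hg : g ∈ gsub d U) : gmap d f g = gmap d f' g := by
  obtain ⟨g', rfl⟩ := hg
  rw [gmap_comp, gmap_comp]
  congr 2
  ext v
  exact h v v.2

theorem gsub_mono {U U' : Submodule F V} (h : U ≤ U') {g : GG F d V} (hg : g ∈ gsub d U) :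
    g ∈ gsub d U' := by
  have := gsub_map (U := U) (U' := U') LinearMap.id (fun v hv => h hv) hg
  rwa [gmap_id] at this

theorem gsub_of_inj (B U : Submodule F V) {g : GG F d B} (hg : gmap d B.subtype g ∈ gsub d U) :
    g ∈ gsub d (U.comap B.subtype) := by
  -- a projection onto `B` which maps `U` into `U ⊓ B`
  obtain ⟨Q, hQ⟩ := (U ⊓ B).exists_isCompl
  have hd : Disjoint B (Q ⊓ U) := by
    rw [disjoint_iff, eq_bot_iff]
    intro x hx
    have h1 : x ∈ (U ⊓ B) ⊓ Q := ⟨⟨hx.2.2, hx.1⟩, hx.2.1⟩
    rw [hQ.inf_eq_bot] at h1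
    exact h1
  obtain ⟨C, hC1, hC3⟩ := hd.symm.exists_isCompl
  have hC2 : IsCompl B C := hC3.symm
  have key : ∀ v ∈ U, (B.projectionOnto C hC2) v ∈ U.comap B.subtype := by
    intro v hv
    have h1 : v ∈ (U ⊓ B) ⊔ Q := by rw [hQ.sup_eq_top]; trivial
    obtain ⟨b, hb, q, hq, rfl⟩ := Submodule.mem_sup.1 h1
    have hqU : q ∈ U := by
      have := U.sub_mem hv hb.1
      rwa [add_sub_cancel_left] at this
    rw [map_add, (Submodule.projectionOnto_apply_eq_zero_iff hC2).2 (hC1 ⟨hq, hqU⟩), add_zero,
      Submodule.projectionOnto_apply_of_mem_left hC2 hb.2]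
    exact hb.1
  have h1 := gsub_map (d := d) (B.projectionOnto C hC2) key hg
  rw [gmap_comp, Submodule.projectionOnto_comp_subtype, gmap_id] at h1
  exact h1

theorem gi_mem_gsub_inl {U : Submodule F V} (s : Multiset V) (z : V) (hs : ∀ v ∈ s, v ∈ U)
    (hz : z ∈ U) : gi F d (Sum.inl (s, z)) ∈ gsub d U := by
  refine ⟨gi F d (Sum.inl (s.attach.map (fun v => ⟨v.1, hs v.1 v.2⟩), ⟨z, hz⟩)), ?_⟩
  rw [gmap_gi]
  simp only [symap, Multiset.map_map, Function.comp_def, Submodule.subtype_apply]
  rw [Multiset.attach_map_val]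

theorem gi_mem_gsub_inr {U : Submodule F V} (s t : Multiset V) (hs : ∀ v ∈ s, v ∈ U)
    (ht : ∀ v ∈ t, v ∈ U) : gi F d (Sum.inr (s, t)) ∈ gsub d U := by
  refine ⟨gi F d (Sum.inr (s.attach.map (fun v => ⟨v.1, hs v.1 v.2⟩),
    t.attach.map (fun v => ⟨v.1, ht v.1 v.2⟩))), ?_⟩
  rw [gmap_gi]
  simp only [symap, Multiset.map_map, Function.comp_def, Submodule.subtype_apply]
  rw [Multiset.attach_map_val, Multiset.attach_map_val]

theorem exists_chain_multiset (U : ℕ → Submodule F V) (hU : Monotone U) (s : Multiset V)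
    (hs : ∀ v ∈ s, v ∈ ⨆ n, U n) : ∃ n, ∀ v ∈ s, v ∈ U n := by
  induction s using Multiset.induction with
  | empty => exact ⟨0, by simp⟩
  | cons a s ih =>
    obtain ⟨n, hn⟩ := ih (fun v hv => hs v (Multiset.mem_cons_of_mem hv))
    obtain ⟨m, hm⟩ := (Submodule.mem_iSup_of_chain ⟨U, hU⟩ a).1 (hs a (Multiset.mem_cons_self a s))
    refine ⟨max n m, ?_⟩
    intro v hv
    rcases Multiset.mem_cons.1 hv with rfl | hv
    · exact hU (le_max_right n m) hm
    · exact hU (le_max_left n m) (hn v hv)

theorem gsub_chain (U : ℕ → Submodule F V) (hU : Monotone U) {g : GG F d V}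
    (hg : g ∈ gsub d (⨆ n, U n)) : ∃ n, g ∈ gsub d (U n) := by
  obtain ⟨g', rfl⟩ := hg
  induction g' using gg_induction with
  | h0 => exact ⟨0, by rw [map_zero]; exact Submodule.zero_mem _⟩
  | hadd a b ha hb =>
    obtain ⟨n, hn⟩ := ha
    obtain ⟨m, hm⟩ := hb
    refine ⟨max n m, ?_⟩
    rw [map_add]
    exact Submodule.add_mem _ (gsub_mono (hU (le_max_left n m)) hn)
      (gsub_mono (hU (le_max_right n m)) hm)
  | hsm c x =>
    rw [map_smul, gmap_gi]
    rcases x with ⟨s, z⟩ | ⟨s, t⟩
    · obtain ⟨n, hn⟩ := exists_chain_multiset U hU (s.map Subtype.val) (by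
        intro v hv
        obtain ⟨w, -, rfl⟩ := Multiset.mem_map.1 hv
        exact w.2)
      obtain ⟨m, hm⟩ := (Submodule.mem_iSup_of_chain ⟨U, hU⟩ z.1).1 z.2
      refine ⟨max n m, Submodule.smul_mem _ _ ?_⟩
      exact gi_mem_gsub_inl _ _ (fun v hv => hU (le_max_left n m) (hn v hv))
        (hU (le_max_right n m) hm)
    · obtain ⟨n, hn⟩ := exists_chain_multiset U hU (s.map Subtype.val) (by
        intro v hv
        obtain ⟨w, -, rfl⟩ := Multiset.mem_map.1 hv
        exact w.2)
      obtain ⟨m, hm⟩ := exists_chain_multiset U hU (t.map Subtype.val) (by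
        intro v hv
        obtain ⟨w, -, rfl⟩ := Multiset.mem_map.1 hv
        exact w.2)
      refine ⟨max n m, Submodule.smul_mem _ _ ?_⟩
      exact gi_mem_gsub_inr _ _ (fun v hv => hU (le_max_left n m) (hn v hv))
        (fun v hv => hU (le_max_right n m) (hm v hv))

end

end Pool.Agent.Helper12.Sab
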