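import Pool.Agent.Helper12.Sab.Agree

set_option autoImplicit false

namespace Pool.Agent.Helper12.Sab

open Multiset

section psum

variable {α β : Type*} {M N : Type*} [AddCommGroup M] [AddCommGroup N]

open Classical in
/-- Sum over all ways of removing an element from a multiset. -/
noncomputable def psum (s : Multiset α) (G : α → Multiset α → M) : M :=
  (s.map (fun x => G x (s.erase x))).sum

theorem psum_zero (G : α → Multiset α → M) : psum 0 G = 0 := by simp [psum]

theorem psum_congr (s : Multiset α) (G G' : α → Multiset α → M)
    (h : ∀ x t, x ::ₘ t = s → G x t = G' x t) : psum s G = psum s G' := by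
  classical
  unfold psum
  congr 1
  apply map_congr rfl
  intro x hx
  exact h _ _ (cons_erase hx)

theorem psum_cons (a : α) (s : Multiset α) (G : α → Multiset α → M) :
    psum (a ::ₘ s) G = G a s + psum s (fun x t => G x (a ::ₘ t)) := by
  classical
  unfold psum
  rw [map_cons, sum_cons, erase_cons_head]
  congr 2
  apply map_congr rfl
  intro x hx
  rw [erase_cons_tail_of_mem hx]

theorem psum_add (s : Multiset α) (G G' : α → Multiset α → M) :
    psum s (fun x t => G x t + G' x t) = psum s G + psum s G' := by
  simp only [psum, sum_map_add]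

theorem psum_sub (s : Multiset α) (G G' : α → Multiset α → M) :
    psum s (fun x t => G x t - G' x t) = psum s G - psum s G' := by
  simp only [psum, sum_map_sub]

theorem psum_hom (s : Multiset α) (G : α → Multiset α → M) (φ : M →+ N) :
    φ (psum s G) = psum s (fun x t => φ (G x t)) := by
  simp only [psum, map_multiset_sum, map_map, Function.comp_def]

theorem psum_smul {R : Type*} [Semiring R] [Module R M] (a : R) (s : Multiset α)
    (G : α → Multiset α → M) : psum s (fun x t => a • G x t) = a • psum s G :=
  (psum_hom s G (DistribSMul.toAddMonoidHom M a)).symm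

theorem psum_const (s : Multiset α) (c : M) : psum s (fun _ _ => c) = card s • c := by
  simp [psum]

theorem psum_map (f : α → β) (s : Multiset α) (G : β → Multiset β → M) :
    psum (s.map f) G = psum s (fun x t => G (f x) (t.map f)) := by
  induction s using Multiset.induction generalizing G with
  | empty => simp [psum_zero]
  | cons a s ih => simp only [map_cons, psum_cons, ih]

/-- An antisymmetric double sum vanishes. -/
theorem psum_psum_antisymm (s : Multiset α) (F : α → α → Multiset α → M)
    (hF : ∀ x y t, F x y t + F y x t = 0) :
    psum s (fun x t => psum t (fun y r => F x y r)) = 0 := by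
  induction s using Multiset.induction generalizing F with
  | empty => simp [psum_zero]
  | cons a s ih =>
    simp only [psum_cons, psum_add]
    rw [ih (fun x y r => F x y (a ::ₘ r)) (fun x y t => hF x y _), add_zero, ← psum_add]
    simp only [hF]
    rw [psum_const, smul_zero]

end psum

theorem splits_length {α : Type*} (u : List α) :
    ∀ p ∈ splits u, p.1.length + p.2.length = u.length := by
  induction u with
  | nil => simp [splits]
  | cons a l ih =>
    intro p hp
    simp only [splits, List.mem_append, List.mem_map] at hp
    rcases hp with ⟨q, hq, rfl⟩ | ⟨q, hq, rfl⟩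
    · have := ih q hq
      simp only [List.length_cons]; omega
    · have := ih q hq
      simp only [List.length_cons]; omega

variable {F : Type*} [Field F] {V : Type*} [AddCommGroup V] [Module F V]
  {W : Type*} [AddCommGroup W] [Module F W]

/-- Normalised frames: the polarisation of `θ (x ^ k) x` vanishes for `k ≥ 1`. -/
def Nrm (θ : Multiset V → V → V) : Prop := ∀ s, 2 ≤ card s → psum s (fun x t => θ t x) = 0

theorem EE_zero {θ : Multiset V → V → V} {θ' : Multiset W → W → W} (h : IsFrame F θ)
    (h' : IsFrame F θ') (f : V →ₗ[F] W) (z : V) : EE θ θ' f 0 z = 0 := by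
  unfold EE
  rw [h.zero, map_zero, h'.zero, sub_self]

theorem psum_EE {θ : Multiset V → V → V} {θ' : Multiset W → W → W} (hN : Nrm θ) (hN' : Nrm θ')
    (f : V →ₗ[F] W) (s : Multiset V) (hs : 2 ≤ card s) :
    psum s (fun x t => EE θ θ' f t x) = 0 := by
  unfold EE
  rw [psum_sub]
  have h1 : psum s (fun x t => f (θ t x)) = 0 := by
    have := psum_hom s (fun x t => θ t x) f.toAddMonoidHom
    rw [hN s hs] at this
    simp only [LinearMap.toAddMonoidHom_coe, f.map_zero] at this
    exact this.symm
  have h2 : psum s (fun x t => θ' (t.map f) (f x)) = 0 := by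
    rw [← psum_map f s (fun x t => θ' t x)]
    exact hN' _ (by rwa [card_map])
  rw [h1, h2, sub_zero]

/-- A homomorphism for the Sabinin operations intertwines the normalised frames. -/
theorem EE_eq_zero_of_hom [CharZero F] {θ : Multiset V → V → V} {θ' : Multiset W → W → W}
    (h : IsFrame F θ) (h' : IsFrame F θ') (hN : Nrm θ) (hN' : Nrm θ') (d : ℕ)
    (hd : ∀ s z, s ≠ 0 → d ≤ card s → θ s z = 0) (hd' : ∀ s z, s ≠ 0 → d ≤ card s → θ' s z = 0)
    (f : V →ₗ[F] W)
    (hf : ∀ (x : List V) (y z : V), x.length + 2 ≤ d →
      f (sb θ x y z) = sb θ' (x.map f) (f y) (f z)) (s : Multiset V) (z : V) :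
    EE θ θ' f s z = 0 := by
  suffices H : ∀ m s z, card s ≤ m → EE θ θ' f s z = 0 from H (card s) s z le_rfl
  intro m
  induction m with
  | zero =>
    intro s z hs
    have : s = 0 := card_eq_zero.1 (Nat.le_zero.1 hs)
    rw [this]
    exact EE_zero h h' f z
  | succ m ih =>
    intro s z hs
    rcases Nat.lt_or_ge (card s) (m + 1) with hlt | hge
    · exact ih s z (by omega)
    have hcs : card s = m + 1 := by omega
    have hs0 : s ≠ 0 := by
      intro h0; rw [h0, card_zero] at hcs; omega
    by_cases hdm : d ≤ m + 1
    · unfold EE
      rw [hd s z hs0 (by omega), f.map_zero, hd' (s.map f) (f z) _ (by rw [card_map]; omega),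
        sub_zero]
      intro h0
      exact hs0 (map_eq_zero.1 h0)
    · have hsym : ∀ (t : Multiset V) (y z : V), card t = m →
          EE θ θ' f (y ::ₘ t) z = EE θ θ' f (z ::ₘ t) y := by
        intro t y z ht
        have hl : t.toList.length = m := by rw [length_toList, ht]
        have h1 := agree h h' f m ih y z t.toList (by omega)
        rw [hf _ _ _ (by omega), sub_self, coe_toList] at h1
        have h2 := neg_eq_zero.1 h1.symm
        exact sub_eq_zero.1 h2
      have h3 := psum_EE hN hN' f (z ::ₘ s) (by rw [card_cons]; omega)
      rw [psum_cons] at h3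
      have h4 : psum s (fun x t => EE θ θ' f (z ::ₘ t) x) = card s • EE θ θ' f s z := by
        rw [← psum_const]
        apply psum_congr
        intro x t hxt
        rw [hsym t z x, hxt]
        have := congrArg card hxt
        rw [card_cons] at this
        omega
      rw [h4, hcs, ← succ_nsmul'] at h3
      have h5 : ((m + 1 + 1 : ℕ) : F) • EE θ θ' f s z = 0 := by
        rw [Nat.cast_smul_eq_nsmul]
        exact h3
      rcases smul_eq_zero.1 h5 with h6 | h6
      · exact absurd h6 (Nat.cast_ne_zero.2 (by omega))
      · exact h6

end Pool.Agent.Helper12.Sab
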